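import Pool.Agent.K4H19.QU.Main

set_option autoImplicit false
set_option linter.unusedSectionVars false

/-! # Almost sure statements for windows -/

open MeasureTheory Filter Set
open scoped ENNReal Topology

namespace Pool.Agent.K4H19.QU

open Pool.Agent.R528.RM

/-- the number of tuples in a window -/
noncomputable def tupCount (S : Set ℕ) (H : Finset ℕ) (y M : ℕ) : ℕ :=
  Set.ncard {m : ℕ | y < m ∧ m ≤ y + M ∧ ∀ h ∈ H, m + h ∈ S}

variable {Ω : Type} {m0 : MeasurableSpace Ω} {μ : Measure Ω} [IsProbabilityMeasure μ]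
  {ℱ : Filtration ℕ m0} {A : ℕ → Set Ω}

lemma prod_In (H : Finset ℕ) (a : ℕ) (ω : Ω) [Decidable (∀ h ∈ H, ω ∈ A (a + h))] :
    ∏ h ∈ H, In A (a + h) ω = if (∀ h ∈ H, ω ∈ A (a + h)) then 1 else 0 := by
  classical
  split_ifs with h
  · refine Finset.prod_eq_one fun b hb => ?_
    unfold In
    exact indicator_of_mem (h b hb) _
  · push Not at h
    obtain ⟨b, hb, hn⟩ := h
    refine Finset.prod_eq_zero hb ?_
    unfold In
    exact indicator_of_notMem hn _

lemma TN_count (ρ : ℕ → ℝ) (H : Finset ℕ) (y M : ℕ) (ω : Ω) :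
    TN A ρ M (sh H y) ∅ ω = tupCount {a | ω ∈ A a} H y M := by
  classical
  unfold TN tupCount
  have h1 : {m : ℕ | y < m ∧ m ≤ y + M ∧ ∀ h ∈ H, m + h ∈ {a | ω ∈ A a}} =
      (((Finset.range M).filter (fun n => ∀ h ∈ H, ω ∈ A (y + 1 + n + h))).image (fun n => y + 1 + n) : Finset ℕ) := by
    ext m
    simp only [Set.mem_ofPred_eq, Finset.coe_image, Finset.coe_filter, Finset.mem_range, Set.mem_image]
    constructor
    · rintro ⟨h1, h2, h3⟩
      refine ⟨m - (y + 1), ⟨by omega, ?_⟩, by omega⟩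
      rw [show y + 1 + (m - (y + 1)) = m by omega]
      exact h3
    · rintro ⟨n, ⟨h1, h2⟩, rfl⟩
      exact ⟨by omega, by omega, h2⟩
  rw [h1, Set.ncard_coe_finset, Finset.card_image_of_injective _ (fun a b h => by simpa using h), Finset.card_filter]
  push_cast
  refine Finset.sum_congr rfl fun n _ => ?_
  rw [Finset.prod_empty, mul_one, prod_sh H y (fun g => In A (n + 1 + g) ω), ← prod_In H (y + 1 + n) ω]
  refine Finset.prod_congr rfl fun h _ => ?_
  rw [show n + 1 + (y + h) = y + 1 + n + h by ring]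

/-- the bad windows -/
theorem as_fixed (hA : ∀ n, MeasurableSet[ℱ n] (A n)) (Q : Finset ℕ) (hQ : ∀ p ∈ Q, p.Prime)
    (hprof : ∀ᵐ ω ∂μ, ∀ ε : ℝ, 0 < ε → ∀ᶠ n : ℕ in atTop,
      |dens μ ℱ A n ω - rhoW (∏ p ∈ Q, p) (n + 1)| ≤ ε * rhoW (∏ p ∈ Q, p) (n + 1))
    (H : Finset ℕ) (hS : 0 < singH Q H) {ε : ℝ} (hε : 0 < ε) (hε1 : ε ≤ 1) (hk : 3 * H.card * ε ≤ 1) {K : ℝ} (hK1 : 1 ≤ K)
    (hK : 128 ≤ K * ε ^ 2 * singH Q H) :
    ∀ᵐ ω ∂μ, ∀ᶠ y : ℕ in atTop, ∀ M : ℕ, K * Real.log y ^ (H.card + 1) ≤ M → M ≤ y →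
      |(tupCount {a | ω ∈ A a} H y M : ℝ) - EE (rhoW (∏ p ∈ Q, p)) M (sh H y)| ≤
        3 * H.card * ε * EE (rhoW (∏ p ∈ Q, p)) M (sh H y) := by
  classical
  set W := ∏ p ∈ Q, p with hWdef
  set k := H.card with hkdef
  have hρ : ∀ n, 0 ≤ rhoW W n ∧ rhoW W n ≤ 1 := fun n => ⟨rhoW_nonneg W n, rhoW_le W n⟩
  set Bad : ℕ → Set Ω := fun y => ⋃ M ∈ (Finset.range (y + 1)).filter (fun M : ℕ => K * Real.log y ^ (k + 1) ≤ M),
    ⋃ g ∈ sh H y, BadS μ ℱ A (rhoW W) ε M (sh H y) g with hBad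
  have hsum : Summable (fun y : ℕ => (4 * k) * ((y : ℝ) ^ 3)⁻¹) :=
    (Real.summable_nat_pow_inv.2 (by norm_num)).mul_left _
  have hb : ∀ᶠ y in atTop, μ.real (Bad y) ≤ (4 * k) * ((y : ℝ) ^ 3)⁻¹ := by
    filter_upwards [win_main Q hQ H (show 0 < singH Q H / 2 by positivity), eventually_ge_atTop 2,
      tendsto_log.eventually_ge_atTop 1] with y hy hy2 hlog
    have hy0 : (2 : ℝ) ≤ y := by exact_mod_cast hy2
    have hexp : ∀ M ∈ (Finset.range (y + 1)).filter (fun M : ℕ => K * Real.log y ^ (k + 1) ≤ M), ∀ g ∈ sh H y,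
        μ.real (BadS μ ℱ A (rhoW W) ε M (sh H y) g) ≤ 2 * ((y : ℝ) ^ 4)⁻¹ := by
      intro M hM g hg
      rw [Finset.mem_filter, Finset.mem_range] at hM
      have hMl : Real.log (y : ℝ) ≤ M := by
        refine le_trans ?_ hM.2
        calc Real.log (y : ℝ) = 1 * Real.log (y : ℝ) ^ 1 := by ring
          _ ≤ K * Real.log (y : ℝ) ^ (k + 1) := by
            apply mul_le_mul hK1 (pow_le_pow_right₀ hlog (by omega)) (by positivity) (by linarith)
      have h1 := (abs_le.1 (hy M hMl (by omega))).1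
      have hM0 : (0 : ℝ) < M := by linarith
      have hE : singH Q H / 2 * K * Real.log y ≤ EE (rhoW W) M (sh H y) := by
        have h2 : singH Q H / 2 ≤ EE (rhoW W) M (sh H y) * Real.log (y : ℝ) ^ k / M := by linarith
        rw [le_div_iff₀ hM0] at h2
        have h3 : singH Q H / 2 * (K * Real.log y ^ (k + 1)) ≤ EE (rhoW W) M (sh H y) * Real.log (y : ℝ) ^ k :=
          (mul_le_mul_of_nonneg_left hM.2 (by positivity)).trans h2
        have h4 : (0 : ℝ) < Real.log (y : ℝ) ^ k := by positivity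
        rw [pow_succ] at h3
        refine le_of_mul_le_mul_right ?_ h4
        linarith
      refine (bad_le (μ := μ) hA hρ hε.le hε1 M (sh H y) g one_pos (fun j ω => (wt_01 hρ _ _ _ _).2)).trans ?_
      apply mul_le_mul_of_nonneg_left _ (by norm_num)
      have e1 : ((y : ℝ) ^ 4)⁻¹ = Real.exp (-((4 : ℕ) * Real.log y)) := by
        rw [Real.exp_neg, Real.exp_nat_mul, Real.exp_log (by linarith)]
      rw [e1]
      apply Real.exp_le_exp.2
      apply neg_le_neg
      rw [mul_one, le_div_iff₀ (by norm_num)]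
      have h5 := mul_le_mul_of_nonneg_left hE (sq_nonneg ε)
      have h6 := mul_le_mul_of_nonneg_right hK (show 0 ≤ Real.log (y : ℝ) by linarith)
      push_cast
      nlinarith
    refine (measureReal_biUnion_finset_le _ _).trans ((Finset.sum_le_sum fun M hM =>
      (measureReal_biUnion_finset_le _ _).trans (Finset.sum_le_sum fun g hg => hexp M hM g hg)).trans ?_)
    rw [Finset.sum_const, Finset.sum_const, nsmul_eq_mul, nsmul_eq_mul, sh_card, ← hkdef]
    have hc : (((Finset.range (y + 1)).filter (fun M : ℕ => K * Real.log y ^ (k + 1) ≤ M)).card : ℝ) ≤ 2 * y := by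
      have h1 := Finset.card_filter_le (Finset.range (y + 1)) (fun M : ℕ => K * Real.log y ^ (k + 1) ≤ M)
      rw [Finset.card_range] at h1
      have h2 : (((Finset.range (y + 1)).filter (fun M : ℕ => K * Real.log y ^ (k + 1) ≤ M)).card : ℝ) ≤ ((y + 1 : ℕ) : ℝ) := by
        exact_mod_cast h1
      push_cast at h2
      linarith
    calc _ ≤ (2 * y : ℝ) * (k * (2 * ((y : ℝ) ^ 4)⁻¹)) := mul_le_mul_of_nonneg_right hc (by positivity)
      _ = _ := by
        have : (y : ℝ) ≠ 0 := by linarith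
        field_simp
        ring
  filter_upwards [bc_real (μ := μ) hsum hb, hprof] with ω hω hω2
  obtain ⟨N, hN⟩ := eventually_atTop.1 (hω2 ε hε)
  filter_upwards [hω, eventually_ge_atTop N] with y hy hyN M hM1 hM2
  rw [← TN_count (A := A) (rhoW W) H y M ω]
  have h1 := chain (μ := μ) (ℱ := ℱ) (A := A) hρ (ω := ω) hε.le (y := y) (fun n hn => hN n (by omega)) M (sh H y)
    (fun g hg => sh_ge hg) (by rw [sh_card]; exact hk) (sh H y) ∅ (by simp) (by simp) (by
      intro g hg hcon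
      apply hy
      simp only [hBad, Set.mem_iUnion]
      exact ⟨M, Finset.mem_filter.2 ⟨Finset.mem_range.2 (by omega), hM1⟩, g, hg, hcon⟩)
  rw [sh_card] at h1
  exact h1

/-- **(A)** -/
theorem as_asymp (hA : ∀ n, MeasurableSet[ℱ n] (A n)) (Q : Finset ℕ) (hQ : ∀ p ∈ Q, p.Prime)
    (hprof : ∀ᵐ ω ∂μ, ∀ ε : ℝ, 0 < ε → ∀ᶠ n : ℕ in atTop,
      |dens μ ℱ A n ω - rhoW (∏ p ∈ Q, p) (n + 1)| ≤ ε * rhoW (∏ p ∈ Q, p) (n + 1))
    (H : Finset ℕ) (hS : 0 < singH Q H) {ε η K : ℝ} (hε : 0 < ε)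
    (hη : η = min 1 (ε / 2) / (3 * (H.card + 1) * (singH Q H + 1)))
    (hK : K = max 1 (128 / (η ^ 2 * singH Q H))) :
    ∀ᵐ ω ∂μ, ∀ᶠ y : ℕ in atTop, ∀ M : ℕ, K * Real.log y ^ (H.card + 1) ≤ M → M ≤ y →
      |(tupCount {a | ω ∈ A a} H y M : ℝ) * Real.log y ^ H.card / M - singH Q H| ≤ ε := by
  classical
  set k := H.card with hkdef
  set S := singH Q H with hSdef
  have hk0 : (0 : ℝ) ≤ k := Nat.cast_nonneg k
  have hm : 0 < min 1 (ε / 2) := lt_min one_pos (by positivity)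
  have hη0 : 0 < η := by rw [hη]; positivity
  have hden : (3 * (k + 1) * (S + 1)) * η = min 1 (ε / 2) := by
    rw [hη]; field_simp
  have hη3 : 3 * (k + 1) * (S + 1) * η ≤ 1 := by rw [hden]; exact min_le_left _ _
  have hη4 : 3 * (k + 1) * (S + 1) * η ≤ ε / 2 := by rw [hden]; exact min_le_right _ _
  have hpos1 : 0 ≤ 3 * (k : ℝ) * η := by positivity
  have hpos2 : 0 ≤ 3 * (k : ℝ) * S * η := by positivity
  have hpos3 : 0 ≤ 3 * S * η := by positivity
  have hη1 : η ≤ 1 := by nlinarith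
  have hη2 : 3 * k * η ≤ 1 := by nlinarith
  have hη5 : 3 * k * η * (S + 1) ≤ ε / 2 := by nlinarith
  have hK1 : 1 ≤ K := by rw [hK]; exact le_max_left _ _
  have hK2 : 128 ≤ K * η ^ 2 * S := by
    have h1 : 128 / (η ^ 2 * S) ≤ K := by rw [hK]; exact le_max_right _ _
    rw [div_le_iff₀ (by positivity)] at h1
    linarith
  filter_upwards [as_fixed (μ := μ) hA Q hQ hprof H hS hη0 hη1 hη2 hK1 hK2] with ω hω
  filter_upwards [hω, win_main Q hQ H (show 0 < min 1 (ε / 2) from hm), tendsto_log.eventually_ge_atTop 1]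
    with y hy hy2 hlog M hM1 hM2
  have hMl : Real.log (y : ℝ) ≤ M := by
    refine le_trans ?_ hM1
    calc Real.log (y : ℝ) = 1 * Real.log (y : ℝ) ^ 1 := by ring
      _ ≤ K * Real.log (y : ℝ) ^ (k + 1) := by
        apply mul_le_mul hK1 (pow_le_pow_right₀ hlog (by omega)) (by positivity) (by linarith)
  have hM0 : (0 : ℝ) < M := by linarith
  have h1 := hy M hM1 hM2
  have h2 := hy2 M hMl hM2
  set T := (tupCount {a | ω ∈ A a} H y M : ℝ)
  set E := EE (rhoW (∏ p ∈ Q, p)) M (sh H y)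
  have hL : (0 : ℝ) < Real.log (y : ℝ) ^ k / M := by positivity
  have h3 : E * Real.log (y : ℝ) ^ k / M ≤ S + 1 := by
    have := (abs_le.1 (h2.trans (min_le_left _ _))).2
    linarith
  have h4 : |T * Real.log y ^ k / M - E * Real.log y ^ k / M| ≤ 3 * k * η * (S + 1) := by
    have e1 : T * Real.log y ^ k / M - E * Real.log y ^ k / M = (T - E) * (Real.log y ^ k / M) := by ring
    rw [e1, abs_mul, abs_of_pos hL]
    calc |T - E| * (Real.log y ^ k / M) ≤ (3 * k * η * E) * (Real.log y ^ k / M) := mul_le_mul_of_nonneg_right h1 hL.le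
      _ = 3 * k * η * (E * Real.log y ^ k / M) := by ring
      _ ≤ _ := mul_le_mul_of_nonneg_left h3 hpos1
  calc |T * Real.log y ^ k / M - S| ≤ |T * Real.log y ^ k / M - E * Real.log y ^ k / M| + |E * Real.log y ^ k / M - S| :=
        abs_sub_le _ _ _
    _ ≤ 3 * k * η * (S + 1) + ε / 2 := add_le_add h4 (h2.trans (min_le_right _ _))
    _ ≤ ε := by linarith

end Pool.Agent.K4H19.QU
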