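import Pool.Agent.K4H19.QU.Low

set_option autoImplicit false
set_option linter.unusedSectionVars false

/-! # Many blocks -/

open MeasureTheory Filter Set
open scoped ENNReal Topology

namespace Pool.Agent.K4H19.QU

open Pool.Agent.R528.RM

variable {Ω : Type} {m0 : MeasurableSpace Ω} {μ : Measure Ω} [IsProbabilityMeasure μ]
  {ℱ : Filtration ℕ m0} {A : ℕ → Set Ω}

/-- truncated weights -/
noncomputable def trunc (μ : Measure Ω) (ℱ : Filtration ℕ m0) (A : ℕ → Set Ω) (a : ℕ) (w : ℕ → Ω → ℝ) (η D : ℝ)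
    (k : ℕ) (ω : Ω) : ℝ :=
  {ω | |dens μ ℱ A (a + k) ω| ≤ η ∧ ∑ j ∈ Finset.range (k + 1), |w j ω * dens μ ℱ A (a + j) ω| ≤ D}.indicator (w k) ω

lemma trunc_meas (a : ℕ) (w : ℕ → Ω → ℝ) (hw : ∀ k, StronglyMeasurable[ℱ (a + k)] (w k)) (η D : ℝ) (k : ℕ) :
    StronglyMeasurable[ℱ (a + k)] (trunc μ ℱ A a w η D k) := by
  have hd : ∀ j ≤ k, Measurable[ℱ (a + k)] (dens μ ℱ A (a + j)) := fun j hj =>
    ((dens_meas (a + j)).mono (ℱ.mono (by omega))).measurable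
  have hw' : ∀ j ≤ k, Measurable[ℱ (a + k)] (w j) := fun j hj => ((hw j).mono (ℱ.mono (by omega))).measurable
  have h1 : MeasurableSet[ℱ (a + k)] {ω | |dens μ ℱ A (a + k) ω| ≤ η} := by
    have h2 : Measurable[ℱ (a + k)] (fun ω => |dens μ ℱ A (a + k) ω|) := continuous_abs.measurable.comp (hd k le_rfl)
    exact h2 measurableSet_Iic
  have h3 : MeasurableSet[ℱ (a + k)] {ω | ∑ j ∈ Finset.range (k + 1), |w j ω * dens μ ℱ A (a + j) ω| ≤ D} := by
    have h2 : Measurable[ℱ (a + k)] (fun ω => ∑ j ∈ Finset.range (k + 1), |w j ω * dens μ ℱ A (a + j) ω|) := by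
      refine Finset.measurable_sum _ fun j hj => ?_
      have hj' := Finset.mem_range.1 hj
      exact continuous_abs.measurable.comp ((hw' j (by omega)).mul (hd j (by omega)))
    exact h2 measurableSet_Iic
  exact (hw k).indicator (h1.inter h3)

lemma trunc_01 (a : ℕ) (w : ℕ → Ω → ℝ) (hw : ∀ k ω, w k ω = 0 ∨ w k ω = 1) (η D : ℝ) (k : ℕ) (ω : Ω) :
    trunc μ ℱ A a w η D k ω = 0 ∨ trunc μ ℱ A a w η D k ω = 1 := by
  unfold trunc
  by_cases h : ω ∈ {ω | |dens μ ℱ A (a + k) ω| ≤ η ∧ ∑ j ∈ Finset.range (k + 1), |w j ω * dens μ ℱ A (a + j) ω| ≤ D}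
  · rw [indicator_of_mem h]
    exact hw k ω
  · rw [indicator_of_notMem h]
    left; rfl

lemma trunc_eta (a : ℕ) (w : ℕ → Ω → ℝ) (hw : ∀ k ω, w k ω = 0 ∨ w k ω = 1) {η : ℝ} (hη : 0 ≤ η) (D : ℝ) (k : ℕ) (ω : Ω) :
    |trunc μ ℱ A a w η D k ω * dens μ ℱ A (a + k) ω| ≤ η := by
  unfold trunc
  by_cases h : ω ∈ {ω | |dens μ ℱ A (a + k) ω| ≤ η ∧ ∑ j ∈ Finset.range (k + 1), |w j ω * dens μ ℱ A (a + j) ω| ≤ D}
  · rw [indicator_of_mem h, abs_mul]
    have h1 : |w k ω| ≤ 1 := by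
      rcases hw k ω with h | h <;> rw [h] <;> norm_num
    calc |w k ω| * |dens μ ℱ A (a + k) ω| ≤ 1 * η := mul_le_mul h1 h.1 (abs_nonneg _) zero_le_one
      _ = η := one_mul _
  · rw [indicator_of_notMem h]
    simpa using hη

lemma trunc_sum (a : ℕ) (w : ℕ → Ω → ℝ) (η : ℝ) {D : ℝ} (hD : 0 ≤ D) (M : ℕ) (ω : Ω) :
    ∑ k ∈ Finset.range M, |trunc μ ℱ A a w η D k ω * dens μ ℱ A (a + k) ω| ≤ D := by
  have hle : ∀ k, |trunc μ ℱ A a w η D k ω * dens μ ℱ A (a + k) ω| ≤ |w k ω * dens μ ℱ A (a + k) ω| := by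
    intro k
    unfold trunc
    by_cases h : ω ∈ {ω | |dens μ ℱ A (a + k) ω| ≤ η ∧ ∑ j ∈ Finset.range (k + 1), |w j ω * dens μ ℱ A (a + j) ω| ≤ D}
    · rw [indicator_of_mem h]
    · rw [indicator_of_notMem h, zero_mul, abs_zero]
      exact abs_nonneg _
  induction M with
  | zero => simpa using hD
  | succ M ih =>
    by_cases h : ω ∈ {ω | |dens μ ℱ A (a + M) ω| ≤ η ∧ ∑ j ∈ Finset.range (M + 1), |w j ω * dens μ ℱ A (a + j) ω| ≤ D}
    · exact (Finset.sum_le_sum fun k _ => hle k).trans h.2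
    · rw [Finset.sum_range_succ]
      have h1 : trunc μ ℱ A a w η D M ω = 0 := indicator_of_notMem h _
      rw [h1, zero_mul, abs_zero, add_zero]
      exact ih

lemma trunc_eq (a : ℕ) (w : ℕ → Ω → ℝ) {η D : ℝ} (M : ℕ) (ω : Ω) (h1 : ∀ k < M, |dens μ ℱ A (a + k) ω| ≤ η)
    (h2 : ∑ k ∈ Finset.range M, |w k ω * dens μ ℱ A (a + k) ω| ≤ D) (k : ℕ) (hk : k < M) :
    trunc μ ℱ A a w η D k ω = w k ω := by
  unfold trunc
  have h3 : ω ∈ {ω | |dens μ ℱ A (a + k) ω| ≤ η ∧ ∑ j ∈ Finset.range (k + 1), |w j ω * dens μ ℱ A (a + j) ω| ≤ D} :=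
    ⟨h1 k hk, le_trans (Finset.sum_le_sum_of_subset_of_nonneg (Finset.range_subset_range.2 (by omega))
      fun _ _ _ => abs_nonneg _) h2⟩
  exact indicator_of_mem h3 _

/-- the block is empty -/
def NB (μ : Measure Ω) (ℱ : Filtration ℕ m0) (A : ℕ → Set Ω) (a M : ℕ) (w : ℕ → Ω → ℝ) (η D : ℝ) : Set Ω :=
  {ω | ∀ k < M, trunc μ ℱ A a w η D k ω * In A (a + k + 1) ω = 0}

lemma NB_meas (hA : ∀ n, MeasurableSet[ℱ n] (A n)) (a M : ℕ) (w : ℕ → Ω → ℝ)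
    (hw : ∀ k, StronglyMeasurable[ℱ (a + k)] (w k)) (η D : ℝ) : MeasurableSet[ℱ (a + M)] (NB μ ℱ A a M w η D) := by
  have h1 : NB μ ℱ A a M w η D = ⋂ k, ⋂ (_ : k < M), {ω | trunc μ ℱ A a w η D k ω * In A (a + k + 1) ω = 0} := by
    ext ω
    simp [NB]
  rw [h1]
  refine MeasurableSet.iInter fun k => MeasurableSet.iInter fun hk => ?_
  have h2 : Measurable[ℱ (a + M)] (fun ω => trunc μ ℱ A a w η D k ω * In A (a + k + 1) ω) :=
    (((trunc_meas a w hw η D k).mono (ℱ.mono (by omega))).measurable).mul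
      ((In_meas (ℱ := ℱ) (k := a + M) hA (by omega)).measurable)
  exact h2 (measurableSet_singleton 0)

/-- no empty block among the first `J` -/
def FB (μ : Measure Ω) (ℱ : Filtration ℕ m0) (A : ℕ → Set Ω) (a M : ℕ) (w : ℕ → ℕ → Ω → ℝ) (η D : ℝ) : ℕ → Set Ω
  | 0 => univ
  | J + 1 => FB μ ℱ A a M w η D J \ NB μ ℱ A (a + J * M) M (w J) η D

lemma FB_meas (hA : ∀ n, MeasurableSet[ℱ n] (A n)) (a M : ℕ) (w : ℕ → ℕ → Ω → ℝ)
    (hw : ∀ j k, StronglyMeasurable[ℱ (a + j * M + k)] (w j k)) (η D : ℝ) (J : ℕ) :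
    MeasurableSet[ℱ (a + J * M)] (FB μ ℱ A a M w η D J) := by
  induction J with
  | zero => exact MeasurableSet.univ
  | succ J ih =>
    have e : a + (J + 1) * M = a + J * M + M := by ring
    rw [e]
    exact (ℱ.mono (by omega) _ ih).diff (NB_meas hA (a + J * M) M (w J) (hw J) η D)

theorem FB_le (hA : ∀ n, MeasurableSet[ℱ n] (A n)) (a M : ℕ) (w : ℕ → ℕ → Ω → ℝ)
    (hw : ∀ j k, StronglyMeasurable[ℱ (a + j * M + k)] (w j k)) (hw1 : ∀ j k ω, w j k ω = 0 ∨ w j k ω = 1)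
    {η D : ℝ} (hη0 : 0 ≤ η) (hη : η ≤ 1 / 2) (hD : 0 ≤ D) (J : ℕ) :
    μ.real (FB μ ℱ A a M w η D J) ≤ (1 - Real.exp (-((1 + 2 * η) * D))) ^ J := by
  have hq : Real.exp (-((1 + 2 * η) * D)) ≤ 1 := Real.exp_le_one_iff.2 (by
    have : 0 ≤ (1 + 2 * η) * D := by positivity
    linarith)
  induction J with
  | zero =>
    rw [pow_zero]
    exact measureReal_le_one
  | succ J ih =>
    have hFm := FB_meas (μ := μ) hA a M w hw η D J
    have h1 := low_block (μ := μ) hA (a + J * M) (trunc μ ℱ A (a + J * M) (w J) η D)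
      (fun k => trunc_meas (a + J * M) (w J) (hw J) η D k) (fun k ω => trunc_01 (a + J * M) (w J) (hw1 J) η D k ω) hη
      (fun k ω => trunc_eta (a + J * M) (w J) (hw1 J) hη0 D k ω) M (fun ω => trunc_sum (a + J * M) (w J) η hD M ω) hFm
    have hNm : MeasurableSet (NB μ ℱ A (a + J * M) M (w J) η D) := ℱ.le _ _ (NB_meas hA (a + J * M) M (w J) (hw J) η D)
    have h2 : μ.real (FB μ ℱ A a M w η D (J + 1)) =
        μ.real (FB μ ℱ A a M w η D J) - μ.real (FB μ ℱ A a M w η D J ∩ NB μ ℱ A (a + J * M) M (w J) η D) := by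
      have h3 := measureReal_inter_add_sdiff (μ := μ) (s := FB μ ℱ A a M w η D J) hNm
      have h4 : μ.real (FB μ ℱ A a M w η D (J + 1)) = μ.real (FB μ ℱ A a M w η D J \ NB μ ℱ A (a + J * M) M (w J) η D) := rfl
      rw [h4]
      linarith
    rw [h2, pow_succ]
    have h5 : μ.real (FB μ ℱ A a M w η D J) - μ.real (FB μ ℱ A a M w η D J ∩ NB μ ℱ A (a + J * M) M (w J) η D) ≤
        μ.real (FB μ ℱ A a M w η D J) * (1 - Real.exp (-((1 + 2 * η) * D))) := by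
      have h6 : Real.exp (-((1 + 2 * η) * D)) * μ.real (FB μ ℱ A a M w η D J) ≤
        μ.real (FB μ ℱ A a M w η D J ∩ NB μ ℱ A (a + J * M) M (w J) η D) := h1
      linarith
    exact h5.trans (mul_le_mul_of_nonneg_right ih (by linarith))

lemma FB_not {a M : ℕ} {w : ℕ → ℕ → Ω → ℝ} {η D : ℝ} {J : ℕ} {ω : Ω} (h : ω ∉ FB μ ℱ A a M w η D J) :
    ∃ j < J, ω ∈ NB μ ℱ A (a + j * M) M (w j) η D := by
  induction J with
  | zero => exact absurd (mem_univ ω) h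
  | succ J ih =>
    by_cases h1 : ω ∈ FB μ ℱ A a M w η D J
    · refine ⟨J, Nat.lt_succ_self J, ?_⟩
      by_contra h2
      exact h ⟨h1, h2⟩
    · obtain ⟨j, hj, h2⟩ := ih h1
      exact ⟨j, by omega, h2⟩

end Pool.Agent.K4H19.QU
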