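import Mathlib
import Pool.Agent.R528.RM.TupQ

set_option autoImplicit false
set_option linter.unusedSectionVars false

/-! # Exponential supermartingales for predictable sums -/

open MeasureTheory Filter Set
open scoped ENNReal Topology

namespace Pool.Agent.K4H19.QU

open Pool.Agent.R528.RM

variable {Ω : Type} {m0 : MeasurableSpace Ω} {μ : Measure Ω} [IsProbabilityMeasure μ]
  {ℱ : Filtration ℕ m0} {A : ℕ → Set Ω}

/-- the exponent -/
noncomputable def Ex (A : ℕ → Set Ω) (a : ℕ) (α β : ℕ → Ω → ℝ) (M : ℕ) (ω : Ω) : ℝ :=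
  ∑ k ∈ Finset.range M, (α k ω * In A (a + k + 1) ω - β k ω)

lemma In_zero_or_one (n : ℕ) (ω : Ω) : In A n ω = 0 ∨ In A n ω = 1 := by
  unfold In
  by_cases h : ω ∈ A n
  · right; simp [h]
  · left; simp [h]

lemma exp_mul_In (x : ℝ) (n : ℕ) (ω : Ω) :
    Real.exp (x * In A n ω) = 1 + (Real.exp x - 1) * In A n ω := by
  rcases In_zero_or_one (A := A) n ω with h | h <;> rw [h] <;> simp

lemma Ex_meas (hA : ∀ n, MeasurableSet[ℱ n] (A n)) (a : ℕ) (α β : ℕ → Ω → ℝ)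
    (hα : ∀ k, StronglyMeasurable[ℱ (a + k)] (α k)) (hβ : ∀ k, StronglyMeasurable[ℱ (a + k)] (β k)) (M : ℕ) :
    StronglyMeasurable[ℱ (a + M)] (Ex A a α β M) := by
  have h1 : Ex A a α β M = ∑ k ∈ Finset.range M, (α k * In A (a + k + 1) - β k) := by
    funext ω
    simp [Ex]
  rw [h1]
  refine Finset.stronglyMeasurable_sum _ fun k hk => ?_
  have hk' := Finset.mem_range.1 hk
  have h2 : StronglyMeasurable[ℱ (a + M)] (α k) := (hα k).mono (ℱ.mono (by omega))
  have h3 : StronglyMeasurable[ℱ (a + M)] (In A (a + k + 1)) := In_meas hA (by omega)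
  have h4 : StronglyMeasurable[ℱ (a + M)] (β k) := (hβ k).mono (ℱ.mono (by omega))
  have h5 : StronglyMeasurable[ℱ (a + M)] (α k * In A (a + k + 1)) :=
    @StronglyMeasurable.mul _ _ _ _ (ℱ (a + M)) _ _ _ h2 h3
  exact @StronglyMeasurable.sub _ _ _ _ (ℱ (a + M)) _ _ _ h5 h4

lemma Ex_bound (a : ℕ) (α β : ℕ → Ω → ℝ) (C : ℝ)
    (hα1 : ∀ k ω, |α k ω| ≤ C) (hβ1 : ∀ k, ∀ᵐ ω ∂μ, |β k ω| ≤ C) (M : ℕ) :
    ∀ᵐ ω ∂μ, |Ex A a α β M ω| ≤ M * (C + C) := by
  filter_upwards [ae_all_iff.2 hβ1] with ω hω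
  unfold Ex
  refine (Finset.abs_sum_le_sum_abs _ _).trans ?_
  refine (Finset.sum_le_card_nsmul _ _ (C + C) fun k _ => ?_).trans (le_of_eq (by simp; ring))
  refine (abs_sub _ _).trans (add_le_add ?_ (hω k))
  rw [abs_mul]
  have h1 := hα1 k ω
  have h2 : |In A (a + k + 1) ω| ≤ 1 := by
    rw [abs_of_nonneg (In_nonneg _ _)]
    exact In_le _ _
  calc |α k ω| * |In A (a + k + 1) ω| ≤ |α k ω| * 1 := mul_le_mul_of_nonneg_left h2 (abs_nonneg _)
    _ ≤ C := by rw [mul_one]; exact h1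

theorem expsup (hA : ∀ n, MeasurableSet[ℱ n] (A n)) (a : ℕ) (α β : ℕ → Ω → ℝ) (C : ℝ)
    (hα : ∀ k, StronglyMeasurable[ℱ (a + k)] (α k)) (hβ : ∀ k, StronglyMeasurable[ℱ (a + k)] (β k))
    (hα1 : ∀ k ω, |α k ω| ≤ C) (hβ1 : ∀ k, ∀ᵐ ω ∂μ, |β k ω| ≤ C)
    (h : ∀ k, ∀ᵐ ω ∂μ, 1 + dens μ ℱ A (a + k) ω * (Real.exp (α k ω) - 1) ≤ Real.exp (β k ω)) (M : ℕ) :
    ∫ ω, Real.exp (Ex A a α β M ω) ∂μ ≤ 1 := by
  have hEb : ∀ M, ∀ᵐ ω ∂μ, ‖Real.exp (Ex A a α β M ω)‖ ≤ Real.exp (M * (C + C)) := by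
    intro M
    filter_upwards [Ex_bound (μ := μ) (A := A) a α β C hα1 hβ1 M] with ω hω
    rw [Real.norm_eq_abs, abs_of_pos (Real.exp_pos _)]
    exact Real.exp_le_exp.2 ((le_abs_self _).trans hω)
  have hEm : ∀ M, StronglyMeasurable[ℱ (a + M)] (fun ω => Real.exp (Ex A a α β M ω)) := fun M =>
    Real.continuous_exp.comp_stronglyMeasurable (Ex_meas hA a α β hα hβ M)
  have hint : ∀ M, Integrable (fun ω => Real.exp (Ex A a α β M ω)) μ := fun M =>
    Integrable.of_bound ((hEm M).mono (ℱ.le _)).aestronglyMeasurable _ (hEb M)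
  induction M with
  | zero => simp [Ex]
  | succ M ih =>
    set D := dens μ ℱ A (a + M) with hD
    have hC0 : 0 ≤ C := by
      obtain ⟨ω⟩ : Nonempty Ω := by
        by_contra hne
        rw [not_nonempty_iff] at hne
        have h1 : μ univ = 1 := measure_univ
        rw [Set.eq_empty_of_isEmpty univ, measure_empty] at h1
        exact zero_ne_one h1
      exact (abs_nonneg _).trans (hα1 0 ω)
    set G : Ω → ℝ := fun ω => Real.exp (Ex A a α β M ω) * Real.exp (-β M ω) with hG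
    set f : Ω → ℝ := fun ω => G ω * (Real.exp (α M ω) - 1) with hf
    have hGm : StronglyMeasurable[ℱ (a + M)] G :=
      @StronglyMeasurable.mul _ _ _ _ (ℱ (a + M)) _ _ _ (hEm M)
        (Real.continuous_exp.comp_stronglyMeasurable (hβ M).neg)
    have hfm : StronglyMeasurable[ℱ (a + M)] f :=
      @StronglyMeasurable.mul _ _ _ _ (ℱ (a + M)) _ _ _ hGm
        (@StronglyMeasurable.sub _ _ _ _ (ℱ (a + M)) _ _ _ (Real.continuous_exp.comp_stronglyMeasurable (hα M))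
          (@stronglyMeasurable_const _ _ (ℱ (a + M)) _ 1))
    have hGb : ∀ᵐ ω ∂μ, ‖G ω‖ ≤ Real.exp (M * (C + C)) * Real.exp C := by
      filter_upwards [hEb M, hβ1 M] with ω h1 h2
      rw [hG, norm_mul]
      refine mul_le_mul h1 ?_ (norm_nonneg _) (Real.exp_pos _).le
      rw [Real.norm_eq_abs, abs_of_pos (Real.exp_pos _)]
      exact Real.exp_le_exp.2 ((neg_le_abs _).trans h2)
    have hfb : ∀ᵐ ω ∂μ, ‖f ω‖ ≤ Real.exp (M * (C + C)) * Real.exp C * (Real.exp C + 1) := by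
      filter_upwards [hGb] with ω h1
      rw [hf, norm_mul]
      refine mul_le_mul h1 ?_ (norm_nonneg _) (by positivity)
      rw [Real.norm_eq_abs]
      have h2 : Real.exp (α M ω) ≤ Real.exp C := Real.exp_le_exp.2 ((le_abs_self _).trans (hα1 M ω))
      have h3 := Real.exp_pos (α M ω)
      rw [abs_le]
      constructor <;> linarith [Real.exp_pos C]
    have hpull := pull_A (μ := μ) hA (a + M) hfm _ hfb
    have hs : ∀ ω, Real.exp (Ex A a α β (M + 1) ω) = G ω + f ω * In A (a + M + 1) ω := by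
      intro ω
      unfold Ex
      rw [Finset.sum_range_succ, Real.exp_add, Real.exp_sub, exp_mul_In]
      simp only [hf, hG, Real.exp_neg, Ex]
      rw [div_eq_mul_inv]
      ring
    have h01 := dens01 (μ := μ) (ℱ := ℱ) hA (a + M)
    have hGi : Integrable G μ := Integrable.of_bound (hGm.mono (ℱ.le _)).aestronglyMeasurable _ hGb
    have hfam : AEStronglyMeasurable f μ := (hfm.mono (ℱ.le _)).aestronglyMeasurable
    have hIam : AEStronglyMeasurable (In A (a + M + 1)) μ :=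
      ((In_meas (n := a + M + 1) hA le_rfl).mono (ℱ.le _)).aestronglyMeasurable
    have hDam : AEStronglyMeasurable D μ := ((dens_meas (a + M)).mono (ℱ.le _)).aestronglyMeasurable
    have i1 : Integrable (fun ω => f ω * In A (a + M + 1) ω) μ := by
      refine Integrable.of_bound (hfam.mul hIam) (Real.exp (M * (C + C)) * Real.exp C * (Real.exp C + 1)) ?_
      filter_upwards [hfb] with ω hω
      rw [norm_mul]
      have hI1 : ‖In A (a + M + 1) ω‖ ≤ 1 := by
        rw [Real.norm_eq_abs, abs_of_nonneg (In_nonneg _ _)]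
        exact In_le _ _
      calc _ ≤ _ * (1 : ℝ) := mul_le_mul hω hI1 (norm_nonneg _) (by positivity)
        _ = _ := mul_one _
    have i2 : Integrable (fun ω => f ω * D ω) μ := by
      refine Integrable.of_bound (hfam.mul hDam) (Real.exp (M * (C + C)) * Real.exp C * (Real.exp C + 1)) ?_
      filter_upwards [hfb, h01] with ω hω h2
      rw [norm_mul]
      have hD1 : ‖D ω‖ ≤ 1 := by
        rw [Real.norm_eq_abs, abs_of_nonneg h2.1]
        exact h2.2
      calc _ ≤ _ * (1 : ℝ) := mul_le_mul hω hD1 (norm_nonneg _) (by positivity)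
        _ = _ := mul_one _
    have e1 : ∫ ω, Real.exp (Ex A a α β (M + 1) ω) ∂μ = ∫ ω, (G ω + f ω * D ω) ∂μ := by
      rw [integral_congr_ae (Eventually.of_forall hs), integral_add hGi i1, integral_add hGi i2]
      congr 1
    rw [e1]
    refine (integral_mono_ae (hGi.add i2) (hint M) ?_).trans ih
    filter_upwards [h M] with ω hω
    have hGE : G ω * Real.exp (β M ω) = Real.exp (Ex A a α β M ω) := by
      simp only [hG]
      rw [mul_assoc, ← Real.exp_add, neg_add_cancel, Real.exp_zero, mul_one]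
    have hG0 : 0 ≤ G ω := by simp only [hG]; positivity
    calc (G + fun ω => f ω * D ω) ω = G ω * (1 + D ω * (Real.exp (α M ω) - 1)) := by
          simp only [Pi.add_apply, hf]; ring
      _ ≤ G ω * Real.exp (β M ω) := mul_le_mul_of_nonneg_left hω hG0
      _ = _ := hGE

/-- Markov's inequality -/
theorem exptail (hA : ∀ n, MeasurableSet[ℱ n] (A n)) (a : ℕ) (α β : ℕ → Ω → ℝ) (C : ℝ)
    (hα : ∀ k, StronglyMeasurable[ℱ (a + k)] (α k)) (hβ : ∀ k, StronglyMeasurable[ℱ (a + k)] (β k))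
    (hα1 : ∀ k ω, |α k ω| ≤ C) (hβ1 : ∀ k, ∀ᵐ ω ∂μ, |β k ω| ≤ C)
    (h : ∀ k, ∀ᵐ ω ∂μ, 1 + dens μ ℱ A (a + k) ω * (Real.exp (α k ω) - 1) ≤ Real.exp (β k ω)) (M : ℕ) (c : ℝ) :
    μ.real {ω | c ≤ Ex A a α β M ω} ≤ Real.exp (-c) := by
  have h1 := expsup (μ := μ) hA a α β C hα hβ hα1 hβ1 h M
  have hint : Integrable (fun ω => Real.exp (Ex A a α β M ω)) μ := by
    refine Integrable.of_bound ((Real.continuous_exp.comp_stronglyMeasurable
      (Ex_meas hA a α β hα hβ M)).mono (ℱ.le _)).aestronglyMeasurable (Real.exp (M * (C + C))) ?_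
    filter_upwards [Ex_bound (μ := μ) (A := A) a α β C hα1 hβ1 M] with ω hω
    rw [Real.norm_eq_abs, abs_of_pos (Real.exp_pos _)]
    exact Real.exp_le_exp.2 ((le_abs_self _).trans hω)
  have h2 := mul_meas_ge_le_integral_of_nonneg (μ := μ) (f := fun ω => Real.exp (Ex A a α β M ω))
    (Eventually.of_forall fun ω => (Real.exp_pos _).le) hint (Real.exp c)
  have h3 : {ω | Real.exp c ≤ Real.exp (Ex A a α β M ω)} = {ω | c ≤ Ex A a α β M ω} := by
    ext ω
    simp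
  rw [h3] at h2
  rw [Real.exp_neg, ← one_div, le_div_iff₀ (Real.exp_pos c), mul_comm]
  exact h2.trans h1

lemma exp_sq_bound {d u : ℝ} (hd : 0 ≤ d) (hu : |u| ≤ 1) :
    1 + d * (Real.exp u - 1) ≤ Real.exp (d * (u + u ^ 2)) := by
  have h1 : Real.exp u - 1 ≤ u + u ^ 2 := by
    have := Real.abs_exp_sub_one_sub_id_le hu
    linarith [(abs_le.1 this).2]
  have h2 := Real.add_one_le_exp (d * (u + u ^ 2))
  have h3 : d * (Real.exp u - 1) ≤ d * (u + u ^ 2) := mul_le_mul_of_nonneg_left h1 hd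
  linarith

/-- two-sided inequality with the predictable variance -/
theorem tail_one (hA : ∀ n, MeasurableSet[ℱ n] (A n)) (a : ℕ) (w : ℕ → Ω → ℝ)
    (hw : ∀ k, StronglyMeasurable[ℱ (a + k)] (w k)) {b : ℝ} (hb : 0 ≤ b) (hw1 : ∀ k ω, 0 ≤ w k ω ∧ w k ω ≤ b) (M : ℕ)
    {s : ℝ} (hsb : |s| * b ≤ 1) (c : ℝ) :
    μ.real {ω | c ≤ s * Sw μ ℱ A a w M ω - s ^ 2 * b * ∑ k ∈ Finset.range M, w k ω * dens μ ℱ A (a + k) ω} ≤
      Real.exp (-c) := by
  have h01 : ∀ k, ∀ᵐ ω ∂μ, 0 ≤ dens μ ℱ A (a + k) ω ∧ dens μ ℱ A (a + k) ω ≤ 1 := fun k => dens01 hA (a + k)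
  have hsw : ∀ k ω, |s * w k ω| ≤ 1 := by
    intro k ω
    rw [abs_mul, abs_of_nonneg (hw1 k ω).1]
    exact (mul_le_mul_of_nonneg_left (hw1 k ω).2 (abs_nonneg _)).trans hsb
  have hkey := exptail (μ := μ) hA a (fun k ω => s * w k ω)
    (fun k ω => (s * w k ω + s ^ 2 * b * w k ω) * dens μ ℱ A (a + k) ω) 2
    (fun k => (hw k).const_mul s)
    (fun k => by
      have h1 : StronglyMeasurable[ℱ (a + k)] (fun ω => s * w k ω + s ^ 2 * b * w k ω) :=
        @StronglyMeasurable.add _ _ _ _ (ℱ (a + k)) _ _ _ ((hw k).const_mul s) ((hw k).const_mul (s ^ 2 * b))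
      exact @StronglyMeasurable.mul _ _ _ _ (ℱ (a + k)) _ _ _ h1 (dens_meas (a + k)))
    (fun k ω => (hsw k ω).trans (by norm_num))
    (fun k => by
      filter_upwards [h01 k] with ω hω
      have h1 := hsw k ω
      have h2 : |s ^ 2 * b * w k ω| ≤ 1 := by
        have e : s ^ 2 * b * w k ω = (s * b) * (s * w k ω) := by ring
        rw [e, abs_mul, abs_mul, abs_of_nonneg hb]
        exact mul_le_one₀ hsb (abs_nonneg _) h1
      rw [abs_mul, abs_of_nonneg hω.1]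
      calc |s * w k ω + s ^ 2 * b * w k ω| * dens μ ℱ A (a + k) ω ≤ |s * w k ω + s ^ 2 * b * w k ω| * 1 :=
            mul_le_mul_of_nonneg_left hω.2 (abs_nonneg _)
        _ ≤ 2 := by
          rw [mul_one]
          exact (abs_add_le _ _).trans (by linarith))
    (fun k => by
      filter_upwards [h01 k] with ω hω
      refine (exp_sq_bound hω.1 (hsw k ω)).trans (Real.exp_le_exp.2 ?_)
      have h2 : (s * w k ω) ^ 2 ≤ s ^ 2 * b * w k ω := by
        have e : (s * w k ω) ^ 2 = s ^ 2 * w k ω * w k ω := by ring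
        have e' : s ^ 2 * b * w k ω = s ^ 2 * w k ω * b := by ring
        rw [e, e']
        exact mul_le_mul_of_nonneg_left (hw1 k ω).2 (mul_nonneg (sq_nonneg _) (hw1 k ω).1)
      rw [mul_comm]
      exact mul_le_mul_of_nonneg_right (by linarith) hω.1)
    M c
  refine le_trans (le_of_eq ?_) hkey
  congr 1
  ext ω
  simp only [mem_ofPred_eq]
  have e : Ex A a (fun k ω => s * w k ω) (fun k ω => (s * w k ω + s ^ 2 * b * w k ω) * dens μ ℱ A (a + k) ω) M ω =
      s * Sw μ ℱ A a w M ω - s ^ 2 * b * ∑ k ∈ Finset.range M, w k ω * dens μ ℱ A (a + k) ω := by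
    unfold Ex Sw
    rw [Finset.mul_sum, Finset.mul_sum, ← Finset.sum_sub_distrib]
    refine Finset.sum_congr rfl fun k _ => ?_
    unfold In
    ring
  rw [e]

theorem tail_two (hA : ∀ n, MeasurableSet[ℱ n] (A n)) (a : ℕ) (w : ℕ → Ω → ℝ)
    (hw : ∀ k, StronglyMeasurable[ℱ (a + k)] (w k)) {b : ℝ} (hb : 0 ≤ b) (hw1 : ∀ k ω, 0 ≤ w k ω ∧ w k ω ≤ b) (M : ℕ)
    {t : ℝ} (ht : 0 ≤ t) (htb : t * b ≤ 1) (lam v : ℝ) :
    μ.real {ω | lam ≤ |Sw μ ℱ A a w M ω| ∧ ∑ k ∈ Finset.range M, w k ω * dens μ ℱ A (a + k) ω ≤ v} ≤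
      2 * Real.exp (-(t * lam - t ^ 2 * b * v)) := by
  have h1 := tail_one (μ := μ) hA a w hw hb hw1 M (s := t) (by rwa [abs_of_nonneg ht]) (t * lam - t ^ 2 * b * v)
  have h2 := tail_one (μ := μ) hA a w hw hb hw1 M (s := -t) (by rwa [abs_neg, abs_of_nonneg ht]) (t * lam - t ^ 2 * b * v)
  refine (measureReal_mono ?_ (measure_ne_top _ _)).trans ((measureReal_union_le _ _).trans ((add_le_add h1 h2).trans (le_of_eq (by ring))))
  rintro ω ⟨h3, h4⟩
  have h5 : t ^ 2 * b * ∑ k ∈ Finset.range M, w k ω * dens μ ℱ A (a + k) ω ≤ t ^ 2 * b * v :=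
    mul_le_mul_of_nonneg_left h4 (by positivity)
  rcases le_abs.1 h3 with h | h
  · left
    have := mul_le_mul_of_nonneg_left h ht
    simp only [mem_ofPred_eq]
    linarith
  · right
    have := mul_le_mul_of_nonneg_left h ht
    simp only [mem_ofPred_eq, neg_sq]
    linarith

/-- the probability that nothing happens -/
theorem tail_low (hA : ∀ n, MeasurableSet[ℱ n] (A n)) (a : ℕ) (w : ℕ → Ω → ℝ)
    (hw : ∀ k, StronglyMeasurable[ℱ (a + k)] (w k)) (hw1 : ∀ k ω, 0 ≤ w k ω ∧ w k ω ≤ 1) (M : ℕ)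
    {τ : ℝ} (hτ : 0 ≤ τ) (D : ℝ) :
    μ.real {ω | ∑ k ∈ Finset.range M, w k ω * In A (a + k + 1) ω = 0 ∧
      D ≤ ∑ k ∈ Finset.range M, w k ω * dens μ ℱ A (a + k) ω} ≤ Real.exp (-((1 - Real.exp (-τ)) * D)) := by
  have h01 : ∀ k, ∀ᵐ ω ∂μ, 0 ≤ dens μ ℱ A (a + k) ω ∧ dens μ ℱ A (a + k) ω ≤ 1 := fun k => dens01 hA (a + k)
  have hg0 : 0 ≤ 1 - Real.exp (-τ) := by
    have : Real.exp (-τ) ≤ 1 := Real.exp_le_one_iff.2 (by linarith)
    linarith
  have hg1 : 1 - Real.exp (-τ) ≤ 1 := by linarith [Real.exp_pos (-τ)]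
  have hkey := exptail (μ := μ) hA a (fun k ω => -τ * w k ω)
    (fun k ω => (-(1 - Real.exp (-τ)) * w k ω) * dens μ ℱ A (a + k) ω) (τ + 1)
    (fun k => (hw k).const_mul (-τ))
    (fun k => by
      exact @StronglyMeasurable.mul _ _ _ _ (ℱ (a + k)) _ _ _ ((hw k).const_mul (-(1 - Real.exp (-τ)))) (dens_meas (a + k)))
    (fun k ω => by
      rw [abs_mul, abs_neg, abs_of_nonneg hτ, abs_of_nonneg (hw1 k ω).1]
      calc τ * w k ω ≤ τ * 1 := mul_le_mul_of_nonneg_left (hw1 k ω).2 hτ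
        _ ≤ τ + 1 := by linarith)
    (fun k => by
      filter_upwards [h01 k] with ω hω
      rw [abs_mul, abs_mul, abs_neg, abs_of_nonneg hω.1, abs_of_nonneg hg0, abs_of_nonneg (hw1 k ω).1]
      have h1 : (1 - Real.exp (-τ)) * w k ω ≤ 1 := mul_le_one₀ hg1 (hw1 k ω).1 (hw1 k ω).2
      have h2 : (1 - Real.exp (-τ)) * w k ω * dens μ ℱ A (a + k) ω ≤ 1 := mul_le_one₀ h1 hω.1 hω.2
      linarith)
    (fun k => by
      filter_upwards [h01 k] with ω hω
      have hconv : Real.exp (-τ * w k ω) ≤ 1 - w k ω * (1 - Real.exp (-τ)) := by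
        have h2 := convexOn_exp.2 (mem_univ (-τ)) (mem_univ (0 : ℝ)) (hw1 k ω).1 (show 0 ≤ 1 - w k ω by linarith [(hw1 k ω).2]) (by ring)
        simp only [smul_eq_mul, mul_zero, add_zero, Real.exp_zero, mul_one] at h2
        have e : -τ * w k ω = w k ω * -τ := by ring
        rw [e]
        linarith
      have h2 := Real.add_one_le_exp (-(1 - Real.exp (-τ)) * w k ω * dens μ ℱ A (a + k) ω)
      have h3 : dens μ ℱ A (a + k) ω * (Real.exp (-τ * w k ω) - 1) ≤ dens μ ℱ A (a + k) ω * (-(w k ω * (1 - Real.exp (-τ)))) :=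
        mul_le_mul_of_nonneg_left (by linarith) hω.1
      have e : dens μ ℱ A (a + k) ω * (-(w k ω * (1 - Real.exp (-τ)))) = -(1 - Real.exp (-τ)) * w k ω * dens μ ℱ A (a + k) ω := by ring
      linarith)
    M ((1 - Real.exp (-τ)) * D)
  refine (measureReal_mono ?_ (measure_ne_top _ _)).trans hkey
  rintro ω ⟨h3, h4⟩
  simp only [mem_ofPred_eq]
  have e : Ex A a (fun k ω => -τ * w k ω) (fun k ω => (-(1 - Real.exp (-τ)) * w k ω) * dens μ ℱ A (a + k) ω) M ω =
      -τ * ∑ k ∈ Finset.range M, w k ω * In A (a + k + 1) ω +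
        (1 - Real.exp (-τ)) * ∑ k ∈ Finset.range M, w k ω * dens μ ℱ A (a + k) ω := by
    unfold Ex
    rw [Finset.mul_sum, Finset.mul_sum, ← Finset.sum_add_distrib]
    refine Finset.sum_congr rfl fun k _ => ?_
    ring
  rw [e, h3, mul_zero, zero_add]
  exact mul_le_mul_of_nonneg_left h4 hg0

end Pool.Agent.K4H19.QU
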