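import Pool.Agent.K4H19.QU.Small

set_option autoImplicit false
set_option linter.unusedSectionVars false

/-! # The two halves of the law of the maximal gap -/

open MeasureTheory Filter Set
open scoped ENNReal Topology

namespace Pool.Agent.K4H19.QU

open Pool.Agent.R528.RM

variable {Ω : Type} {m0 : MeasurableSpace Ω} {μ : Measure Ω} [IsProbabilityMeasure μ]
  {ℱ : Filtration ℕ m0} {A : ℕ → Set Ω}

lemma tupCount_mono (S : Set ℕ) (H : Finset ℕ) (y : ℕ) {M M' : ℕ} (h : M ≤ M') : tupCount S H y M ≤ tupCount S H y M' := by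
  unfold tupCount
  refine Set.ncard_le_ncard ?_ ?_
  · rintro m ⟨h1, h2, h3⟩
    exact ⟨h1, by omega, h3⟩
  · exact (Set.finite_Iic (y + M')).subset fun m hm => hm.2.1

lemma wt_last01 {ρ : ℕ → ℝ} (H : Finset ℕ) (g : ℕ) (hmax : ∀ a ∈ H, a ≤ g) (k : ℕ) (ω : Ω) :
    wt A ρ H g k ω = 0 ∨ wt A ρ H g k ω = 1 := by
  classical
  unfold wt
  have h1 : H.filter (g < ·) = ∅ := by
    ext a
    simp only [Finset.mem_filter, Finset.notMem_empty, iff_false, not_and, not_lt]
    exact hmax a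
  rw [h1, Finset.prod_empty, mul_one, prod_In (A := A) (H.filter (· < g)) (k + 1) ω]
  split_ifs
  · right; rfl
  · left; rfl

/-- every window is eventually non-empty -/
theorem upper_half (hA : ∀ n, MeasurableSet[ℱ n] (A n)) (Q : Finset ℕ) (hQ : ∀ p ∈ Q, p.Prime)
    (hprof : ∀ᵐ ω ∂μ, ∀ ε : ℝ, 0 < ε → ∀ᶠ n : ℕ in atTop,
      |dens μ ℱ A n ω - rhoW (∏ p ∈ Q, p) (n + 1)| ≤ ε * rhoW (∏ p ∈ Q, p) (n + 1))
    (H : Finset ℕ) (hHne : H.Nonempty) (hS : 0 < singH Q H) {δ : ℝ} (hδ : 0 < δ) (hδ1 : δ ≤ 1) :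
    ∀ᵐ ω ∂μ, ∀ᶠ y : ℕ in atTop, ∀ M : ℕ, (1 + δ) * Real.log y ^ (H.card + 1) / singH Q H ≤ M →
      0 < tupCount {a | ω ∈ A a} H y M := by
  classical
  set W := ∏ p ∈ Q, p with hWdef
  set k := H.card with hkdef
  set S := singH Q H with hSdef
  have hρ : ∀ n, 0 ≤ rhoW W n ∧ rhoW W n ≤ 1 := fun n => ⟨rhoW_nonneg W n, rhoW_le W n⟩
  obtain ⟨M0, hM0⟩ : ∃ M0 : ℕ → ℕ, ∀ y : ℕ, M0 y = ⌈(1 + δ) * Real.log y ^ (k + 1) / S⌉₊ := ⟨_, fun _ => rfl⟩
  set τ := Real.log (8 / δ) with hτ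
  have hτ0 : 0 ≤ τ := Real.log_nonneg (by rw [le_div_iff₀ hδ]; linarith)
  have hτe : Real.exp (-τ) = δ / 8 := by
    rw [hτ, Real.exp_neg, Real.exp_log (by positivity), inv_div]
  have hsum : Summable (fun y : ℕ => (y : ℝ) ^ (-(1 + δ / 4))) := Real.summable_nat_rpow.2 (by linarith)
  have hb : ∀ᶠ y : ℕ in atTop, μ.real (NoT μ ℱ A (rhoW W) (M0 y) (sh H y) (y + H.sup id) ((1 + δ / 2) * Real.log y)) ≤
      (y : ℝ) ^ (-(1 + δ / 4)) := by
    filter_upwards [eventually_ge_atTop 2] with y hy2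
    have hy0 : (2 : ℝ) ≤ y := by exact_mod_cast hy2
    have hl : 0 < Real.log (y : ℝ) := Real.log_pos (by linarith)
    refine (not_le' (μ := μ) hA hρ (M0 y) (sh H y) (y + H.sup id) hτ0 _).trans ?_
    rw [hτe, Real.rpow_def_of_pos (by linarith)]
    apply Real.exp_le_exp.2
    have h1 : (1 + δ / 4) ≤ (1 - δ / 8) * (1 + δ / 2) := by nlinarith
    nlinarith
  have hMle : ∀ᶠ y : ℕ in atTop, M0 y ≤ y := by
    have t1 : Tendsto (fun y : ℕ => (1 + δ) / S * (Real.log y ^ (k + 1) / y)) atTop (𝓝 ((1 + δ) / S * 0)) := by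
      refine Tendsto.const_mul _ ?_
      have := (Real.isLittleO_pow_log_id_atTop (n := k + 1)).tendsto_div_nhds_zero
      exact this.comp (tendsto_natCast_atTop_atTop (R := ℝ))
    rw [mul_zero] at t1
    filter_upwards [t1.eventually (gt_mem_nhds one_pos), eventually_gt_atTop 0] with y hy hy0
    have hy' : (0 : ℝ) < y := by exact_mod_cast hy0
    rw [hM0, Nat.ceil_le]
    have e1 : (1 + δ) * Real.log (y : ℝ) ^ (k + 1) / S = (1 + δ) / S * (Real.log y ^ (k + 1) / y) * y := by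
      field_simp
    rw [e1]
    nlinarith
  filter_upwards [bc_real (μ := μ) hsum hb, last_as (μ := μ) hA Q hQ hprof H hHne hS (show 0 < S * δ / 8 by positivity)
    (show 0 < (1 + δ) / S by positivity)] with ω hω hω2
  filter_upwards [hω, hω2, hMle, eventually_ge_atTop 2] with y hy hy2 hy3 hy4 M hM
  have hy0 : (2 : ℝ) ≤ y := by exact_mod_cast hy4
  have hl : 0 < Real.log (y : ℝ) := Real.log_pos (by linarith)
  have hMM : M0 y ≤ M := by
    rw [hM0, Nat.ceil_le]
    exact hM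
  refine lt_of_lt_of_le ?_ (tupCount_mono _ H y hMM)
  have hle : (1 + δ) / S * Real.log y ^ (k + 1) ≤ (M0 y : ℝ) := by
    rw [hM0]
    refine le_trans (le_of_eq ?_) (Nat.le_ceil _)
    ring
  obtain ⟨h1, h2⟩ := hy2 (M0 y) hle hy3
  by_contra hcon
  have hz : tupCount {a | ω ∈ A a} H y (M0 y) = 0 := by omega
  rw [hz, Nat.cast_zero] at h2
  apply hy
  refine ⟨h2.symm, ?_⟩
  set T := ∑ k ∈ Finset.range (M0 y), wt A (rhoW W) (sh H y) (y + H.sup id) k ω * dens μ ℱ A (y + H.sup id + k) ω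
  have h3 := (abs_le.1 h1).1
  have hMpos : (0 : ℝ) < M0 y := lt_of_lt_of_le (by positivity) hle
  have h4 : S * (1 - δ / 8) ≤ T * Real.log y ^ k / (M0 y) := by linarith
  rw [le_div_iff₀ hMpos] at h4
  have h5 : S * (1 - δ / 8) * ((1 + δ) / S * Real.log y ^ (k + 1)) ≤ T * Real.log y ^ k :=
    (mul_le_mul_of_nonneg_left hle (mul_nonneg hS.le (by linarith))).trans h4
  have e1 : S * (1 - δ / 8) * ((1 + δ) / S * Real.log y ^ (k + 1)) = ((1 - δ / 8) * (1 + δ) * Real.log y) * Real.log y ^ k := by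
    field_simp
    ring
  rw [e1] at h5
  have h6 := le_of_mul_le_mul_right h5 (by positivity)
  refine le_trans ?_ h6
  apply mul_le_mul_of_nonneg_right _ hl.le
  nlinarith

/-- there are long windows without tuples -/
theorem lower_half (hA : ∀ n, MeasurableSet[ℱ n] (A n)) (Q : Finset ℕ) (hQ : ∀ p ∈ Q, p.Prime)
    (hprof : ∀ᵐ ω ∂μ, ∀ ε : ℝ, 0 < ε → ∀ᶠ n : ℕ in atTop,
      |dens μ ℱ A n ω - rhoW (∏ p ∈ Q, p) (n + 1)| ≤ ε * rhoW (∏ p ∈ Q, p) (n + 1))
    (H : Finset ℕ) (hHne : H.Nonempty) (hS : 0 < singH Q H) {δ : ℝ} (hδ : 0 < δ) (hδ1 : δ < 1) :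
    ∀ᵐ ω ∂μ, ∀ᶠ x : ℕ in atTop, ∃ y : ℕ, x ≤ y ∧ y ≤ 2 * x ∧ ∀ M : ℕ,
      (M : ℝ) ≤ (1 - δ) * Real.log x ^ (H.card + 1) / singH Q H → tupCount {a | ω ∈ A a} H y M = 0 := by
  classical
  set W := ∏ p ∈ Q, p with hWdef
  set c := (W : ℝ) / Nat.totient W with hc
  have hcpos : 0 < c := cc_pos Q hQ
  set k := H.card with hkdef
  set S := singH Q H with hSdef
  set B := H.sup id with hB
  obtain ⟨M1, hM1⟩ : ∃ M1 : ℕ → ℕ, ∀ x : ℕ, M1 x = ⌊(1 - δ) * Real.log x ^ (k + 1) / S⌋₊ := ⟨_, fun _ => rfl⟩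
  obtain ⟨η, hη⟩ : ∃ η : ℝ, η = δ / 8 := ⟨_, rfl⟩
  have hη0 : 0 < η := by rw [hη]; positivity
  have hη1 : η ≤ 1 / 2 := by rw [hη]; linarith
  obtain ⟨w, hw⟩ : ∃ w : ℕ → ℕ → ℕ → Ω → ℝ, ∀ x j, w x j = wt A (rhoW W) (sh H (x + j * M1 x)) (x + j * M1 x + B) := ⟨_, fun _ _ => rfl⟩
  have hmax : ∀ y, ∀ a ∈ sh H y, a ≤ y + B := by
    intro y a ha
    obtain ⟨h, hh, rfl⟩ := mem_sh.1 ha
    have : h ≤ H.sup id := Finset.le_sup (f := id) hh
    omega
  have hwm : ∀ x j i, StronglyMeasurable[ℱ (x + B + j * M1 x + i)] (w x j i) := by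
    intro x j i
    rw [hw]
    have h1 := wt_meas (ℱ := ℱ) hA (rhoW W) (sh H (x + j * M1 x)) (x + j * M1 x + B) i
    rwa [show x + j * M1 x + B + i = x + B + j * M1 x + i by ring] at h1
  have hw01 : ∀ x j i ω, w x j i ω = 0 ∨ w x j i ω = 1 := by
    intro x j i ω
    rw [hw]
    exact wt_last01 _ _ (hmax _) i ω
  -- sizes
  have tM : Tendsto (fun x : ℕ => (1 - δ) * Real.log x ^ (k + 1) / S) atTop atTop := by
    have h1 : Tendsto (fun x : ℕ => ((1 - δ) / S) * Real.log x ^ (k + 1)) atTop atTop :=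
      Tendsto.const_mul_atTop (div_pos (by linarith) hS) ((tendsto_pow_atTop (by omega)).comp tendsto_log)
    refine h1.congr fun x => ?_
    ring
  have tJ : ∀ᶠ x : ℕ in atTop, 4 * Real.log x * ((1 - δ) * Real.log x ^ (k + 1) / S) ≤ (x : ℝ) ^ (δ / 4) := by
    have h1 := (isLittleO_log_rpow_rpow_atTop ((k + 2 : ℕ) : ℝ) (show (0 : ℝ) < δ / 4 by positivity)).def
      (show (0 : ℝ) < (4 * ((1 - δ) / S))⁻¹ by have : 0 < (1 - δ) / S := div_pos (by linarith) hS; positivity)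
    have h2 := (tendsto_natCast_atTop_atTop (R := ℝ)).eventually h1
    filter_upwards [h2, eventually_ge_atTop 2] with x hx hx2
    have hx0 : (2 : ℝ) ≤ x := by exact_mod_cast hx2
    have hl : 0 < Real.log (x : ℝ) := Real.log_pos (by linarith)
    rw [Real.rpow_natCast, Real.norm_eq_abs, Real.norm_eq_abs, abs_of_nonneg (by positivity), abs_of_nonneg (by positivity)] at hx
    have h3 : 0 < (1 - δ) / S := div_pos (by linarith) hS
    rw [← div_eq_inv_mul, le_div_iff₀ (by positivity)] at hx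
    refine le_trans (le_of_eq ?_) hx
    ring
  have tx : ∀ᶠ x : ℕ in atTop, (1 - δ) * Real.log x ^ (k + 1) / S ≤ x := by
    have t1 : Tendsto (fun y : ℕ => (1 - δ) / S * (Real.log y ^ (k + 1) / y)) atTop (𝓝 ((1 - δ) / S * 0)) := by
      refine Tendsto.const_mul _ ?_
      have := (Real.isLittleO_pow_log_id_atTop (n := k + 1)).tendsto_div_nhds_zero
      exact this.comp (tendsto_natCast_atTop_atTop (R := ℝ))
    rw [mul_zero] at t1
    filter_upwards [t1.eventually (gt_mem_nhds one_pos), eventually_gt_atTop 0] with y hy hy0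
    have hy' : (0 : ℝ) < y := by exact_mod_cast hy0
    have e1 : (1 - δ) * Real.log (y : ℝ) ^ (k + 1) / S = (1 - δ) / S * (Real.log y ^ (k + 1) / y) * y := by
      field_simp
    rw [e1]
    nlinarith
  have hsum : Summable (fun x : ℕ => ((x : ℝ) ^ 2)⁻¹) := Real.summable_nat_pow_inv.2 (by norm_num)
  have hb : ∀ᶠ x : ℕ in atTop, μ.real (FB μ ℱ A (x + B) (M1 x) (w x) η ((1 - δ / 2) * Real.log x) (x / M1 x)) ≤ ((x : ℝ) ^ 2)⁻¹ := by
    filter_upwards [eventually_ge_atTop 2, tJ, tx, tM.eventually_ge_atTop 1] with x hx2 hJ hMx hM1x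
    have hx0 : (2 : ℝ) ≤ x := by exact_mod_cast hx2
    have hl : 0 < Real.log (x : ℝ) := Real.log_pos (by linarith)
    have hD0 : 0 ≤ (1 - δ / 2) * Real.log x := mul_nonneg (by linarith) hl.le
    refine (FB_le (μ := μ) hA (x + B) (M1 x) (w x) (hwm x) (hw01 x) hη0.le hη1 hD0 (x / M1 x)).trans ?_
    set q := Real.exp (-((1 + 2 * η) * ((1 - δ / 2) * Real.log x))) with hq
    have hMpos : 1 ≤ M1 x := by
      rw [hM1]
      exact Nat.le_floor (by exact_mod_cast hM1x)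
    have hMle : (M1 x : ℝ) ≤ (1 - δ) * Real.log x ^ (k + 1) / S := by
      rw [hM1]
      exact Nat.floor_le (by linarith)
    have hMx' : M1 x ≤ x := by exact_mod_cast hMle.trans hMx
    have hMp : (0 : ℝ) < M1 x := by exact_mod_cast hMpos
    have hJx : (x : ℝ) ≤ 2 * ((x / M1 x : ℕ) : ℝ) * M1 x := by
      have h1 : x < (x / M1 x + 1) * M1 x := by
        have := Nat.lt_mul_div_succ x (show 0 < M1 x by omega)
        rw [mul_comm]
        exact this
      have h2 : 1 ≤ x / M1 x := (Nat.one_le_div_iff (by omega)).2 hMx'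
      have h3 : (x / M1 x + 1) * M1 x ≤ 2 * (x / M1 x) * M1 x := Nat.mul_le_mul_right _ (by omega)
      exact_mod_cast (h1.le.trans h3)
    have hqlow : (x : ℝ) ^ (δ / 4) ≤ q * x := by
      rw [hq, Real.rpow_def_of_pos (by linarith)]
      have e1 : (x : ℝ) = Real.exp (Real.log x) := (Real.exp_log (by linarith)).symm
      conv_rhs => rw [e1]
      rw [Real.log_exp, ← Real.exp_add]
      apply Real.exp_le_exp.2
      have h1 : (1 + 2 * η) * (1 - δ / 2) ≤ 1 - δ / 4 := by rw [hη]; nlinarith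
      nlinarith
    have hqJ : 2 * Real.log x ≤ q * ((x / M1 x : ℕ) : ℝ) := by
      have h1 : 4 * Real.log x * M1 x ≤ q * x := by
        refine le_trans ?_ (hJ.trans hqlow)
        exact mul_le_mul_of_nonneg_left hMle (by positivity)
      have hq0 : 0 < q := Real.exp_pos _
      have h2 : q * x ≤ q * (2 * ((x / M1 x : ℕ) : ℝ) * M1 x) := mul_le_mul_of_nonneg_left hJx hq0.le
      have h3 : 4 * Real.log x * M1 x ≤ 2 * (q * ((x / M1 x : ℕ) : ℝ)) * M1 x := by linarith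
      have h4 := le_of_mul_le_mul_right h3 hMp
      linarith
    have hq1 : q ≤ 1 := Real.exp_le_one_iff.2 (by
      have : 0 ≤ (1 + 2 * η) * ((1 - δ / 2) * Real.log x) := by positivity
      linarith)
    have h5 : (1 - q) ^ (x / M1 x) ≤ Real.exp (-(q * ((x / M1 x : ℕ) : ℝ))) := by
      have h6 : 1 - q ≤ Real.exp (-q) := by have := Real.add_one_le_exp (-q); linarith
      calc (1 - q) ^ (x / M1 x) ≤ Real.exp (-q) ^ (x / M1 x) := pow_le_pow_left₀ (by linarith) h6 _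
        _ = _ := by rw [← Real.exp_nat_mul]; congr 1; ring
    refine h5.trans ?_
    have e2 : ((x : ℝ) ^ 2)⁻¹ = Real.exp (-((2 : ℕ) * Real.log x)) := by
      rw [Real.exp_neg, Real.exp_nat_mul, Real.exp_log (by linarith)]
    rw [e2]
    apply Real.exp_le_exp.2
    push_cast
    linarith
  have hκ : 0 < (1 - δ) / (S * 2 ^ (k + 2)) := div_pos (by linarith) (by positivity)
  have tr : Tendsto (fun x : ℕ => c / Real.log x) atTop (𝓝 0) := tendsto_const_nhds.div_atTop tendsto_log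
  filter_upwards [bc_real (μ := μ) hsum hb, last_as (μ := μ) hA Q hQ hprof H hHne hS (show 0 < S * δ / 2 by positivity) hκ,
    hprof] with ω hω hω2 hω3
  obtain ⟨N, hN⟩ := eventually_atTop.1 hω2
  obtain ⟨N', hN'⟩ := eventually_atTop.1 (hω3 1 one_pos)
  filter_upwards [hω, eventually_ge_atTop (max N N'), eventually_ge_atTop 2, tx, tM.eventually_ge_atTop 2,
    tr.eventually (gt_mem_nhds (show (0 : ℝ) < η / 2 by positivity))] with x hx hxN hx2 hMx hM2 htr
  have hx0 : (2 : ℝ) ≤ x := by exact_mod_cast hx2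
  have hl : 0 < Real.log (x : ℝ) := Real.log_pos (by linarith)
  have hxN1 : N ≤ x := (le_max_left _ _).trans hxN
  have hxN2 : N' ≤ x := (le_max_right _ _).trans hxN
  obtain ⟨j, hj, hNB⟩ := FB_not hx
  have hMle : (M1 x : ℝ) ≤ (1 - δ) * Real.log x ^ (k + 1) / S := by
    rw [hM1]
    exact Nat.floor_le (by linarith)
  have hMge : (1 - δ) * Real.log x ^ (k + 1) / S / 2 ≤ M1 x := by
    have := Nat.lt_floor_add_one ((1 - δ) * Real.log x ^ (k + 1) / S)
    rw [← hM1] at this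
    linarith
  have hMpos : 1 ≤ M1 x := by
    rw [hM1]
    exact Nat.le_floor (by push_cast; linarith)
  set y := x + j * M1 x with hy
  have hyx : x ≤ y := by omega
  have hjM : (j + 1) * M1 x ≤ x := (Nat.mul_le_mul_right _ (show j + 1 ≤ x / M1 x by omega)).trans (Nat.div_mul_le_self x _)
  have hy2x : y + M1 x ≤ 2 * x := by
    have : j * M1 x + M1 x = (j + 1) * M1 x := by ring
    omega
  refine ⟨y, hyx, by omega, ?_⟩
  have hyx' : (x : ℝ) ≤ y := by exact_mod_cast hyx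
  have hy2x' : (y : ℝ) ≤ 2 * x := by exact_mod_cast (by omega : y ≤ 2 * x)
  have hly : Real.log x ≤ Real.log y := Real.log_le_log (by linarith) hyx'
  have hly2 : Real.log y ≤ 2 * Real.log x := by
    have h1 := Real.log_le_log (show (0 : ℝ) < y by linarith) hy2x'
    rw [Real.log_mul (by norm_num) (by linarith)] at h1
    have h2 : Real.log 2 ≤ Real.log x := Real.log_le_log (by norm_num) hx0
    linarith
  have hMr1 : (1 - δ) / (S * 2 ^ (k + 2)) * Real.log y ^ (k + 1) ≤ (M1 x : ℝ) := by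
    refine le_trans ?_ hMge
    have h1 : Real.log (y : ℝ) ^ (k + 1) ≤ (2 * Real.log x) ^ (k + 1) := pow_le_pow_left₀ (by linarith) hly2 _
    refine (mul_le_mul_of_nonneg_left h1 hκ.le).trans (le_of_eq ?_)
    rw [mul_pow]
    field_simp
    ring
  have hMr2 : M1 x ≤ y := by
    have : (M1 x : ℝ) ≤ x := hMle.trans hMx
    have : M1 x ≤ x := by exact_mod_cast this
    omega
  obtain ⟨h1, h2⟩ := hN y (by omega) (M1 x) hMr1 hMr2
  have hwt : w x j = wt A (rhoW W) (sh H y) (y + B) := by rw [hw]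
  have hdn : ∀ i, 0 ≤ dens μ ℱ A (y + B + i) ω ∧ |dens μ ℱ A (y + B + i) ω| ≤ η := by
    intro i
    have h3 := hN' (y + B + i) (by omega)
    rw [one_mul] at h3
    have h4 := abs_le.1 h3
    have h5 : rhoW W (y + B + i + 1) ≤ c / Real.log x := rho_small W x (y + B + i + 1) (by omega) (by omega)
    have h6 : 0 ≤ dens μ ℱ A (y + B + i) ω := by linarith [h4.1]
    refine ⟨h6, ?_⟩
    rw [abs_of_nonneg h6]
    linarith [h4.2]
  have hsumle : ∑ i ∈ Finset.range (M1 x), |w x j i ω * dens μ ℱ A (x + B + j * M1 x + i) ω| ≤ (1 - δ / 2) * Real.log x := by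
    have e1 : ∑ i ∈ Finset.range (M1 x), |w x j i ω * dens μ ℱ A (x + B + j * M1 x + i) ω| =
        ∑ i ∈ Finset.range (M1 x), wt A (rhoW W) (sh H y) (y + B) i ω * dens μ ℱ A (y + B + i) ω := by
      refine Finset.sum_congr rfl fun i _ => ?_
      rw [hwt, show x + B + j * M1 x + i = y + B + i by rw [hy]; ring, abs_of_nonneg]
      refine mul_nonneg ?_ (hdn i).1
      rcases wt_last01 (A := A) (ρ := rhoW W) (sh H y) (y + B) (hmax y) i ω with h | h <;> rw [h] <;> norm_num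
    rw [e1]
    set T := ∑ i ∈ Finset.range (M1 x), wt A (rhoW W) (sh H y) (y + B) i ω * dens μ ℱ A (y + B + i) ω
    have hMp : (0 : ℝ) < M1 x := by exact_mod_cast hMpos
    have h3 := (abs_le.1 h1).2
    have h4 : T * Real.log y ^ k / M1 x ≤ S * (1 + δ / 2) := by linarith
    rw [div_le_iff₀ hMp] at h4
    have hT0 : 0 ≤ T := by
      refine Finset.sum_nonneg fun i _ => mul_nonneg ?_ (hdn i).1
      rcases wt_last01 (A := A) (ρ := rhoW W) (sh H y) (y + B) (hmax y) i ω with h | h <;> rw [h] <;> norm_num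
    have h5 : T * Real.log x ^ k ≤ T * Real.log y ^ k := mul_le_mul_of_nonneg_left (pow_le_pow_left₀ hl.le hly _) hT0
    have h6 : S * (1 + δ / 2) * M1 x ≤ S * (1 + δ / 2) * ((1 - δ) * Real.log x ^ (k + 1) / S) :=
      mul_le_mul_of_nonneg_left hMle (by positivity)
    have e2 : S * (1 + δ / 2) * ((1 - δ) * Real.log x ^ (k + 1) / S) = ((1 + δ / 2) * (1 - δ) * Real.log x) * Real.log x ^ k := by
      field_simp
      ring
    rw [e2] at h6
    have h7 := le_of_mul_le_mul_right ((h5.trans h4).trans h6) (by positivity)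
    refine h7.trans (mul_le_mul_of_nonneg_right ?_ hl.le)
    nlinarith
  have hz : tupCount {a | ω ∈ A a} H y (M1 x) = 0 := by
    have h3 : ∑ i ∈ Finset.range (M1 x), wt A (rhoW W) (sh H y) (y + B) i ω * In A (y + B + i + 1) ω = 0 := by
      refine Finset.sum_eq_zero fun i hi => ?_
      have hi' := Finset.mem_range.1 hi
      have h4 := hNB i hi'
      rw [trunc_eq (x + B + j * M1 x) (w x j) (M1 x) ω (fun i' _ => by
        have := (hdn i').2
        rwa [show y + B + i' = x + B + j * M1 x + i' by rw [hy]; ring] at this) hsumle i hi', hwt,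
        show x + B + j * M1 x + i + 1 = y + B + i + 1 by rw [hy]; ring] at h4
      exact h4
    rw [h3] at h2
    exact_mod_cast h2
  intro M hM
  have hMM : M ≤ M1 x := by
    rw [hM1]
    exact Nat.le_floor hM
  have := tupCount_mono {a | ω ∈ A a} H y hMM
  omega

end Pool.Agent.K4H19.QU
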