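import Pool.Agent.K4H19.QU.AS

set_option autoImplicit false
set_option linter.unusedSectionVars false

/-! # Lower bounds for the probability of an empty block -/

open MeasureTheory Filter Set
open scoped ENNReal Topology

namespace Pool.Agent.K4H19.QU

open Pool.Agent.R528.RM

variable {Ω : Type} {m0 : MeasurableSpace Ω} {μ : Measure Ω} [IsProbabilityMeasure μ]
  {ℱ : Filtration ℕ m0} {A : ℕ → Set Ω}

/-- product martingale -/
noncomputable def ZZ (μ : Measure Ω) (ℱ : Filtration ℕ m0) (A : ℕ → Set Ω) (a : ℕ) (w : ℕ → Ω → ℝ) (M : ℕ) (ω : Ω) : ℝ :=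
  ∏ k ∈ Finset.range M, ((1 - w k ω * In A (a + k + 1) ω) * (1 - w k ω * dens μ ℱ A (a + k) ω)⁻¹)

lemma ZZ_meas (hA : ∀ n, MeasurableSet[ℱ n] (A n)) (a : ℕ) (w : ℕ → Ω → ℝ)
    (hw : ∀ k, StronglyMeasurable[ℱ (a + k)] (w k)) (M : ℕ) :
    StronglyMeasurable[ℱ (a + M)] (ZZ μ ℱ A a w M) := by
  have h1 : ZZ μ ℱ A a w M = ∏ k ∈ Finset.range M, (fun ω => (1 - w k ω * In A (a + k + 1) ω) * (1 - w k ω * dens μ ℱ A (a + k) ω)⁻¹) := by
    funext ω
    simp [ZZ]
  rw [h1]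
  refine Finset.stronglyMeasurable_prod _ fun k hk => ?_
  have hk' := Finset.mem_range.1 hk
  have h2 : Measurable[ℱ (a + M)] (w k) := ((hw k).mono (ℱ.mono (by omega))).measurable
  have h3 : Measurable[ℱ (a + M)] (In A (a + k + 1)) := (In_meas (ℱ := ℱ) (k := a + M) hA (by omega)).measurable
  have h4 : Measurable[ℱ (a + M)] (dens μ ℱ A (a + k)) := ((dens_meas (a + k)).mono (ℱ.mono (by omega))).measurable
  have h5 : Measurable[ℱ (a + M)] (fun ω => 1 - w k ω * In A (a + k + 1) ω) := (h2.mul h3).const_sub 1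
  have h6 : Measurable[ℱ (a + M)] (fun ω => (1 - w k ω * dens μ ℱ A (a + k) ω)⁻¹) := ((h2.mul h4).const_sub 1).inv
  exact (h5.mul h6).stronglyMeasurable

lemma inv_bd {x : ℝ} (hx : |x| ≤ 1 / 2) : 0 < (1 - x)⁻¹ ∧ (1 - x)⁻¹ ≤ 2 := by
  have h := abs_le.1 hx
  have h1 : 0 < 1 - x := by linarith
  refine ⟨inv_pos.2 h1, ?_⟩
  rw [inv_le_comm₀ h1 (by norm_num)]
  linarith

lemma one_sub_bd {w i : ℝ} (hw : 0 ≤ w ∧ w ≤ 1) (hi : 0 ≤ i ∧ i ≤ 1) : 0 ≤ 1 - w * i ∧ 1 - w * i ≤ 1 := by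
  have h1 : 0 ≤ w * i := mul_nonneg hw.1 hi.1
  have h2 : w * i ≤ 1 := mul_le_one₀ hw.2 hi.1 hi.2
  constructor <;> linarith

lemma ZZ_bd (a : ℕ) (w : ℕ → Ω → ℝ) (hw1 : ∀ k ω, 0 ≤ w k ω ∧ w k ω ≤ 1)
    (hw2 : ∀ k ω, |w k ω * dens μ ℱ A (a + k) ω| ≤ 1 / 2) (M : ℕ) (ω : Ω) :
    0 ≤ ZZ μ ℱ A a w M ω ∧ ZZ μ ℱ A a w M ω ≤ 2 ^ M := by
  unfold ZZ
  have h : ∀ k ∈ Finset.range M, 0 ≤ (1 - w k ω * In A (a + k + 1) ω) * (1 - w k ω * dens μ ℱ A (a + k) ω)⁻¹ ∧
      (1 - w k ω * In A (a + k + 1) ω) * (1 - w k ω * dens μ ℱ A (a + k) ω)⁻¹ ≤ 2 := by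
    intro k _
    obtain ⟨h1, h2⟩ := inv_bd (hw2 k ω)
    obtain ⟨h3, h4⟩ := one_sub_bd (hw1 k ω) ⟨In_nonneg (A := A) (a + k + 1) ω, In_le (A := A) (a + k + 1) ω⟩
    refine ⟨mul_nonneg h3 h1.le, ?_⟩
    calc _ ≤ 1 * (2 : ℝ) := mul_le_mul h4 h2 h1.le (by norm_num)
      _ = 2 := one_mul _
  refine ⟨Finset.prod_nonneg fun k hk => (h k hk).1, ?_⟩
  calc _ ≤ ∏ k ∈ Finset.range M, (2 : ℝ) := Finset.prod_le_prod (fun k hk => (h k hk).1) fun k hk => (h k hk).2
    _ = _ := by simp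

theorem ZZ_int (hA : ∀ n, MeasurableSet[ℱ n] (A n)) (a : ℕ) (w : ℕ → Ω → ℝ)
    (hw : ∀ k, StronglyMeasurable[ℱ (a + k)] (w k)) (hw1 : ∀ k ω, 0 ≤ w k ω ∧ w k ω ≤ 1)
    (hw2 : ∀ k ω, |w k ω * dens μ ℱ A (a + k) ω| ≤ 1 / 2) {F : Set Ω} (hF : MeasurableSet[ℱ a] F) (M : ℕ) :
    ∫ ω, F.indicator (fun _ => (1 : ℝ)) ω * ZZ μ ℱ A a w M ω ∂μ = μ.real F := by
  induction M with
  | zero =>
    simp only [ZZ, Finset.range_zero, Finset.prod_empty, mul_one]
    rw [integral_indicator_const _ (ℱ.le a _ hF)]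
    simp
  | succ M ih =>
    rw [← ih]
    set D := dens μ ℱ A (a + M) with hD
    set G : Ω → ℝ := fun ω => F.indicator (fun _ => (1 : ℝ)) ω * ZZ μ ℱ A a w M ω * (1 - w M ω * D ω)⁻¹ with hG
    set f : Ω → ℝ := fun ω => G ω * w M ω with hf
    have hFm : Measurable[ℱ (a + M)] (F.indicator (fun _ => (1 : ℝ))) :=
      (@measurable_const _ _ _ (ℱ (a + M)) 1).indicator (ℱ.mono (by omega) _ hF)
    have hZm : Measurable[ℱ (a + M)] (ZZ μ ℱ A a w M) := (ZZ_meas hA a w hw M).measurable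
    have hwm : Measurable[ℱ (a + M)] (w M) := (hw M).measurable
    have hDm : Measurable[ℱ (a + M)] D := (dens_meas (a + M)).measurable
    have hGm : Measurable[ℱ (a + M)] G := (hFm.mul hZm).mul ((hwm.mul hDm).const_sub 1).inv
    have hfm : Measurable[ℱ (a + M)] f := hGm.mul hwm
    have hI1 : ∀ ω, 0 ≤ F.indicator (fun _ => (1 : ℝ)) ω ∧ F.indicator (fun _ => (1 : ℝ)) ω ≤ 1 := fun ω =>
      ⟨indicator_nonneg (fun _ _ => zero_le_one) ω, indicator_le_self' (fun _ _ => zero_le_one) ω⟩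
    have hGb : ∀ ω, ‖G ω‖ ≤ 2 ^ M * 2 := by
      intro ω
      obtain ⟨h1, h2⟩ := inv_bd (hw2 M ω)
      obtain ⟨h3, h4⟩ := ZZ_bd (μ := μ) (ℱ := ℱ) (A := A) a w hw1 hw2 M ω
      obtain ⟨h5, h6⟩ := hI1 ω
      rw [Real.norm_eq_abs, abs_of_nonneg (mul_nonneg (mul_nonneg h5 h3) h1.le)]
      have h7 : F.indicator (fun _ => (1 : ℝ)) ω * ZZ μ ℱ A a w M ω ≤ 1 * 2 ^ M := mul_le_mul h6 h4 h3 zero_le_one
      rw [one_mul] at h7
      exact mul_le_mul h7 h2 h1.le (by positivity)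
    have hfb : ∀ ω, ‖f ω‖ ≤ 2 ^ M * 2 := by
      intro ω
      rw [hf, norm_mul]
      have h1 : ‖w M ω‖ ≤ 1 := by
        rw [Real.norm_eq_abs, abs_of_nonneg (hw1 M ω).1]
        exact (hw1 M ω).2
      calc _ ≤ (2 ^ M * 2 : ℝ) * 1 := mul_le_mul (hGb ω) h1 (norm_nonneg _) (by positivity)
        _ = _ := mul_one _
    have hpull := pull_A (μ := μ) hA (a + M) hfm.stronglyMeasurable _ (Eventually.of_forall hfb)
    have h01 := dens01 (μ := μ) (ℱ := ℱ) hA (a + M)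
    have hGi : Integrable G μ :=
      Integrable.of_bound (hGm.stronglyMeasurable.mono (ℱ.le _)).aestronglyMeasurable _ (Eventually.of_forall hGb)
    have hfam : AEStronglyMeasurable f μ := (hfm.stronglyMeasurable.mono (ℱ.le _)).aestronglyMeasurable
    have hIam : AEStronglyMeasurable (In A (a + M + 1)) μ :=
      ((In_meas (n := a + M + 1) hA le_rfl).mono (ℱ.le _)).aestronglyMeasurable
    have hDam : AEStronglyMeasurable D μ := ((dens_meas (a + M)).mono (ℱ.le _)).aestronglyMeasurable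
    have i1 : Integrable (fun ω => f ω * In A (a + M + 1) ω) μ := by
      refine Integrable.of_bound (hfam.mul hIam) (2 ^ M * 2) (Eventually.of_forall fun ω => ?_)
      rw [norm_mul]
      have hI1 : ‖In A (a + M + 1) ω‖ ≤ 1 := by
        rw [Real.norm_eq_abs, abs_of_nonneg (In_nonneg _ _)]
        exact In_le _ _
      calc _ ≤ (2 ^ M * 2 : ℝ) * (1 : ℝ) := mul_le_mul (hfb ω) hI1 (norm_nonneg _) (by positivity)
        _ = _ := mul_one _
    have i2 : Integrable (fun ω => f ω * D ω) μ := by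
      refine Integrable.of_bound (hfam.mul hDam) (2 ^ M * 2) ?_
      filter_upwards [h01] with ω h2
      rw [norm_mul]
      have hD1 : ‖D ω‖ ≤ 1 := by
        rw [Real.norm_eq_abs, abs_of_nonneg h2.1]
        exact h2.2
      calc _ ≤ (2 ^ M * 2 : ℝ) * (1 : ℝ) := mul_le_mul (hfb ω) hD1 (norm_nonneg _) (by positivity)
        _ = _ := mul_one _
    have hs : ∀ ω, F.indicator (fun _ => (1 : ℝ)) ω * ZZ μ ℱ A a w (M + 1) ω = G ω - f ω * In A (a + M + 1) ω := by
      intro ω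
      unfold ZZ
      rw [Finset.prod_range_succ]
      simp only [hf, hG, ZZ]
      ring
    have ht : ∀ ω, F.indicator (fun _ => (1 : ℝ)) ω * ZZ μ ℱ A a w M ω = G ω - f ω * D ω := by
      intro ω
      have h1 := abs_le.1 (hw2 M ω)
      have h2 : 1 - w M ω * D ω ≠ 0 := by
        have h3 : w M ω * D ω ≤ 1 / 2 := h1.2
        linarith
      have h3 : G ω * (1 - w M ω * D ω) = F.indicator (fun _ => (1 : ℝ)) ω * ZZ μ ℱ A a w M ω := by
        simp only [hG]
        rw [mul_assoc, inv_mul_cancel₀ h2, mul_one]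
      rw [← h3]
      simp only [hf]
      ring
    rw [integral_congr_ae (Eventually.of_forall hs), integral_congr_ae (Eventually.of_forall ht),
      integral_sub hGi i1, integral_sub hGi i2]
    congr 1

lemma inv_exp {x η : ℝ} (hx : |x| ≤ η) (hη : η ≤ 1 / 2) : (1 - x)⁻¹ ≤ Real.exp ((1 + 2 * η) * |x|) := by
  have h := abs_le.1 hx
  have h1 : 0 < 1 - x := by linarith
  have hη0 : 0 ≤ η := (abs_nonneg x).trans hx
  have h2 := Real.add_one_le_exp ((1 + 2 * η) * |x|)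
  refine le_trans ?_ h2
  rw [inv_le_iff_one_le_mul₀ h1]
  rcases le_or_gt 0 x with h3 | h3
  · rw [abs_of_nonneg h3] at hx ⊢
    nlinarith [mul_nonneg h3 (sub_nonneg.2 hx), mul_nonneg (mul_nonneg h3 h3) (sub_nonneg.2 hη), mul_nonneg h3 h3,
      mul_nonneg h3 (sub_nonneg.2 (hx.trans hη)), mul_nonneg (mul_nonneg h3 hη0) (sub_nonneg.2 (hx.trans hη))]
  · have h4 : 0 ≤ (1 + 2 * η) * |x| := by positivity
    nlinarith

/-- lower bound for the probability that nothing is completed -/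
theorem low_block (hA : ∀ n, MeasurableSet[ℱ n] (A n)) (a : ℕ) (w : ℕ → Ω → ℝ)
    (hw : ∀ k, StronglyMeasurable[ℱ (a + k)] (w k)) (hw1 : ∀ k ω, w k ω = 0 ∨ w k ω = 1)
    {η D : ℝ} (hη : η ≤ 1 / 2)
    (hw2 : ∀ k ω, |w k ω * dens μ ℱ A (a + k) ω| ≤ η) (M : ℕ)
    (hD : ∀ ω, ∑ k ∈ Finset.range M, |w k ω * dens μ ℱ A (a + k) ω| ≤ D) {F : Set Ω} (hF : MeasurableSet[ℱ a] F) :
    Real.exp (-((1 + 2 * η) * D)) * μ.real F ≤ μ.real (F ∩ {ω | ∀ k < M, w k ω * In A (a + k + 1) ω = 0}) := by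
  have hw1' : ∀ k ω, 0 ≤ w k ω ∧ w k ω ≤ 1 := by
    intro k ω
    rcases hw1 k ω with h | h <;> rw [h] <;> norm_num
  have hw2' : ∀ k ω, |w k ω * dens μ ℱ A (a + k) ω| ≤ 1 / 2 := fun k ω => (hw2 k ω).trans hη
  set N : Set Ω := {ω | ∀ k < M, w k ω * In A (a + k + 1) ω = 0} with hN
  have hNm : MeasurableSet N := by
    have h1 : N = ⋂ k, ⋂ (_ : k < M), {ω | w k ω * In A (a + k + 1) ω = 0} := by
      ext ω
      simp [hN]
    rw [h1]
    refine MeasurableSet.iInter fun k => MeasurableSet.iInter fun _ => ?_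
    have h2 : Measurable (fun ω => w k ω * In A (a + k + 1) ω) :=
      (((hw k).mono (ℱ.le _)).measurable).mul (((In_meas (n := a + k + 1) hA le_rfl).mono (ℱ.le _)).measurable)
    exact h2 (measurableSet_singleton 0)
  have hη0 : 0 ≤ η := by
    obtain ⟨ω⟩ : Nonempty Ω := by
      by_contra hne
      rw [not_nonempty_iff] at hne
      have h1 : μ univ = 1 := measure_univ
      rw [Set.eq_empty_of_isEmpty univ, measure_empty] at h1
      exact zero_ne_one h1
    exact (abs_nonneg _).trans (hw2 0 ω)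
  have hFm : MeasurableSet F := ℱ.le a _ hF
  have key : ∀ ω, F.indicator (fun _ => (1 : ℝ)) ω * ZZ μ ℱ A a w M ω ≤
      (F ∩ N).indicator (fun _ => Real.exp ((1 + 2 * η) * D)) ω := by
    intro ω
    by_cases h1 : ω ∈ F
    · rw [indicator_of_mem h1, one_mul]
      by_cases h2 : ω ∈ N
      · rw [indicator_of_mem (show ω ∈ F ∩ N from ⟨h1, h2⟩)]
        have h3 : ∀ k ∈ Finset.range M, (1 - w k ω * In A (a + k + 1) ω) * (1 - w k ω * dens μ ℱ A (a + k) ω)⁻¹ ≤
            Real.exp ((1 + 2 * η) * |w k ω * dens μ ℱ A (a + k) ω|) := by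
          intro k hk
          have h4 := h2 k (Finset.mem_range.1 hk)
          rw [h4, sub_zero, one_mul]
          exact inv_exp (hw2 k ω) hη
        have h5 : ∀ k ∈ Finset.range M, 0 ≤ (1 - w k ω * In A (a + k + 1) ω) * (1 - w k ω * dens μ ℱ A (a + k) ω)⁻¹ := by
          intro k hk
          have h4 := h2 k (Finset.mem_range.1 hk)
          rw [h4, sub_zero, one_mul]
          exact (inv_bd (hw2' k ω)).1.le
        unfold ZZ
        refine (Finset.prod_le_prod h5 h3).trans ?_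
        rw [← Real.exp_sum, ← Finset.mul_sum]
        exact Real.exp_le_exp.2 (mul_le_mul_of_nonneg_left (hD ω) (by linarith))
      · have h3 : ZZ μ ℱ A a w M ω = 0 := by
          simp only [hN, Set.mem_ofPred_eq] at h2
          push Not at h2
          obtain ⟨k, hk, hne⟩ := h2
          refine Finset.prod_eq_zero (Finset.mem_range.2 hk) ?_
          have h4 : w k ω = 1 := by
            rcases hw1 k ω with h | h
            · rw [h, zero_mul] at hne
              exact absurd rfl hne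
            · exact h
          have h5 : In A (a + k + 1) ω = 1 := by
            rcases In_zero_or_one (A := A) (a + k + 1) ω with h | h
            · rw [h, mul_zero] at hne
              exact absurd rfl hne
            · exact h
          rw [h4, h5]
          simp
        rw [h3]
        exact indicator_nonneg (fun _ _ => (Real.exp_pos _).le) ω
    · rw [indicator_of_notMem h1, zero_mul]
      exact indicator_nonneg (fun _ _ => (Real.exp_pos _).le) ω
  have hint : Integrable (fun ω => F.indicator (fun _ => (1 : ℝ)) ω * ZZ μ ℱ A a w M ω) μ := by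
    refine Integrable.of_bound ?_ (2 ^ M) (Eventually.of_forall fun ω => ?_)
    · exact ((measurable_const.indicator hFm).mul ((ZZ_meas hA a w hw M).mono (ℱ.le _)).measurable).aestronglyMeasurable
    · obtain ⟨h3, h4⟩ := ZZ_bd (μ := μ) (ℱ := ℱ) (A := A) a w hw1' hw2' M ω
      have h5 : 0 ≤ F.indicator (fun _ => (1 : ℝ)) ω := indicator_nonneg (fun _ _ => zero_le_one) ω
      have h6 : F.indicator (fun _ => (1 : ℝ)) ω ≤ 1 := indicator_le_self' (fun _ _ => zero_le_one) ω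
      rw [Real.norm_eq_abs, abs_of_nonneg (mul_nonneg h5 h3)]
      calc _ ≤ 1 * (2 : ℝ) ^ M := mul_le_mul h6 h4 h3 zero_le_one
        _ = _ := one_mul _
  have h1 := integral_mono hint ((integrable_const (Real.exp ((1 + 2 * η) * D))).indicator (hFm.inter hNm)) key
  rw [ZZ_int hA a w hw hw1' hw2' hF M, integral_indicator_const _ (hFm.inter hNm), smul_eq_mul] at h1
  have hpos := Real.exp_pos (-((1 + 2 * η) * D))
  calc Real.exp (-((1 + 2 * η) * D)) * μ.real F ≤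
      Real.exp (-((1 + 2 * η) * D)) * (μ.real (F ∩ N) * Real.exp ((1 + 2 * η) * D)) := mul_le_mul_of_nonneg_left h1 hpos.le
    _ = μ.real (F ∩ N) * (Real.exp (-((1 + 2 * η) * D)) * Real.exp ((1 + 2 * η) * D)) := by ring
    _ = μ.real (F ∩ N) := by rw [← Real.exp_add, neg_add_cancel, Real.exp_zero, mul_one]

end Pool.Agent.K4H19.QU
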