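import Pool.Agent.K4H19.QU.Step

set_option autoImplicit false
set_option linter.unusedSectionVars false

/-! # The main term in a window -/

open MeasureTheory Filter Set Polynomial
open scoped ENNReal Topology

namespace Pool.Agent.K4H19.QU

open Pool.Agent.R528.RM

/-- the shifted pattern -/
def sh (H : Finset ℕ) (y : ℕ) : Finset ℕ := H.image (fun h => y + h)

lemma sh_card (H : Finset ℕ) (y : ℕ) : (sh H y).card = H.card :=
  Finset.card_image_of_injective _ fun a b h => by simpa using h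

lemma mem_sh {H : Finset ℕ} {y g : ℕ} : g ∈ sh H y ↔ ∃ h ∈ H, y + h = g := by
  unfold sh
  rw [Finset.mem_image]

lemma sh_ge {H : Finset ℕ} {y g : ℕ} (h : g ∈ sh H y) : y ≤ g := by
  obtain ⟨a, _, rfl⟩ := mem_sh.1 h
  omega

lemma prod_sh (H : Finset ℕ) (y : ℕ) (f : ℕ → ℝ) : ∏ g ∈ sh H y, f g = ∏ h ∈ H, f (y + h) := by
  unfold sh
  rw [Finset.prod_image]
  intro a _ b _ h
  simpa using h

lemma cc_pos (Q : Finset ℕ) (hQ : ∀ p ∈ Q, p.Prime) :
    0 < (((∏ p ∈ Q, p : ℕ) : ℝ) / Nat.totient (∏ p ∈ Q, p)) := by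
  have hW : 0 < ∏ p ∈ Q, p := Finset.prod_pos fun q hq => (hQ q hq).pos
  exact div_pos (by exact_mod_cast hW) (by exact_mod_cast Nat.totient_pos.2 hW)

/-- the main term is uniform in the window -/
theorem win_main (Q : Finset ℕ) (hQ : ∀ p ∈ Q, p.Prime) (H : Finset ℕ) {ε : ℝ} (hε : 0 < ε) :
    ∀ᶠ y : ℕ in atTop, ∀ M : ℕ, Real.log y ≤ M → M ≤ y →
      |EE (rhoW (∏ p ∈ Q, p)) M (sh H y) * Real.log y ^ H.card / M - singH Q H| ≤ ε := by
  classical
  set W := ∏ p ∈ Q, p with hWdef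
  have hW : 0 < W := Finset.prod_pos fun q hq => (hQ q hq).pos
  set c := (W : ℝ) / Nat.totient W with hc
  have hcpos : 0 < c := cc_pos Q hQ
  set k := H.card with hk
  obtain ⟨B, hB⟩ : ∃ B : ℕ, ∀ h ∈ H, h ≤ B := ⟨H.sup id, fun h hh => Finset.le_sup (f := id) hh⟩
  -- choice of η
  obtain ⟨η, hη0, hη⟩ : ∃ η : ℝ, 0 < η ∧ c ^ k - ε / 2 ≤ (c / (1 + η)) ^ k := by
    have t2 : Tendsto (fun η : ℝ => (c / (1 + η)) ^ k) (𝓝 0) (𝓝 ((c / (1 + 0)) ^ k)) := by
      have : ContinuousAt (fun η : ℝ => (c / (1 + η)) ^ k) 0 :=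
        ContinuousAt.pow (ContinuousAt.div continuousAt_const (by fun_prop) (by norm_num)) k
      exact this.tendsto
    rw [add_zero, div_one] at t2
    obtain ⟨r, hr, hr1⟩ := Metric.eventually_nhds_iff.1 (t2.eventually (lt_mem_nhds (show c ^ k - ε / 2 < c ^ k by linarith)))
    have h2 := hr1 (y := r / 2) (by rw [Real.dist_eq, sub_zero, abs_of_pos (by positivity)]; linarith)
    exact ⟨r / 2, by positivity, h2.le⟩
  have t1 : Tendsto (fun y : ℕ => c ^ k * (2 * W) / Real.log y) atTop (𝓝 0) :=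
    tendsto_const_nhds.div_atTop tendsto_log
  filter_upwards [tendsto_log.eventually_ge_atTop (max 1 c), tendsto_log.eventually_ge_atTop (Real.log 4 / η),
    t1.eventually (gt_mem_nhds (show (0 : ℝ) < ε / 2 by positivity)), eventually_ge_atTop (B + 2)]
    with y hy1 hy2 hy3 hy4 M hM1 hM2
  have hy0 : (0 : ℝ) < y := by exact_mod_cast (by omega : 0 < y)
  have hlog1 : 1 ≤ Real.log (y : ℝ) := (le_max_left _ _).trans hy1
  have hlogc : c ≤ Real.log (y : ℝ) := (le_max_right _ _).trans hy1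
  have hM0 : (0 : ℝ) < M := lt_of_lt_of_le (by linarith) hM1
  have hlog4 : Real.log (4 * (y : ℝ)) ≤ (1 + η) * Real.log y := by
    rw [Real.log_mul (by norm_num) hy0.ne']
    rw [div_le_iff₀ hη0] at hy2
    linarith
  -- the individual terms
  have hterm : ∀ n ∈ Finset.range M, ∀ h ∈ H, Nat.Coprime (n + 1 + (y + h)) W →
      c / (1 + η) ≤ rhoW W (n + 1 + (y + h)) * Real.log y ∧ rhoW W (n + 1 + (y + h)) * Real.log y ≤ c := by
    intro n hn h hh hcop
    have hn' := Finset.mem_range.1 hn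
    have hhB := hB h hh
    have m1 : (y : ℝ) ≤ ((n + 1 + (y + h) : ℕ) : ℝ) := by exact_mod_cast (by omega : y ≤ n + 1 + (y + h))
    have m2 : ((n + 1 + (y + h) : ℕ) : ℝ) ≤ 4 * y := by exact_mod_cast (by omega : n + 1 + (y + h) ≤ 4 * y)
    have l1 := Real.log_le_log hy0 m1
    have l2 := (Real.log_le_log (lt_of_lt_of_le hy0 m1) m2).trans hlog4
    have l4 : 0 < Real.log ((n + 1 + (y + h) : ℕ) : ℝ) := by linarith
    have e1 : rhoW W (n + 1 + (y + h)) = c / Real.log ((n + 1 + (y + h) : ℕ) : ℝ) := by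
      unfold rhoW
      rw [if_pos hcop]
      exact min_eq_right ((div_le_one l4).2 (hlogc.trans l1))
    rw [e1, div_mul_eq_mul_div]
    constructor
    · rw [div_le_div_iff₀ (by linarith) l4]
      nlinarith
    · rw [div_le_iff₀ l4]
      nlinarith
  set a : ℕ → ℝ := fun n => if good (PH H) W (n + 1 + y) then 1 else 0 with ha
  have ha01 : ∀ n, 0 ≤ a n ∧ a n ≤ 1 := by
    intro n
    simp only [ha]
    split_ifs <;> norm_num
  have e1 : ∀ n ∈ Finset.range M, a n * (c ^ k - ε / 2) ≤ (∏ g ∈ sh H y, rhoW W (n + 1 + g)) * Real.log y ^ k ∧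
      (∏ g ∈ sh H y, rhoW W (n + 1 + g)) * Real.log y ^ k ≤ a n * c ^ k := by
    intro n hn
    rw [prod_sh H y (fun g => rhoW W (n + 1 + g))]
    have e2 : (∏ h ∈ H, rhoW W (n + 1 + (y + h))) * Real.log y ^ k = ∏ h ∈ H, (rhoW W (n + 1 + (y + h)) * Real.log y) := by
      rw [Finset.prod_mul_distrib, Finset.prod_const]
    rw [e2]
    by_cases hg : good (PH H) W (n + 1 + y)
    · have hg' := (good_PH H W (n + 1 + y)).1 hg
      have e3 : a n = 1 := if_pos hg
      rw [e3, one_mul, one_mul]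
      have hcop : ∀ h ∈ H, Nat.Coprime (n + 1 + (y + h)) W := by
        intro h hh
        have := hg' h hh
        rwa [show n + 1 + y + h = n + 1 + (y + h) by ring] at this
      constructor
      · refine hη.trans ?_
        rw [hk, ← Finset.prod_const]
        exact Finset.prod_le_prod (fun _ _ => (div_pos hcpos (by linarith)).le) fun h hh => (hterm n hn h hh (hcop h hh)).1
      · rw [hk, ← Finset.prod_const]
        exact Finset.prod_le_prod (fun h hh => (div_pos hcpos (by linarith : (0:ℝ) < 1 + η)).le.trans (hterm n hn h hh (hcop h hh)).1)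
          fun h hh => (hterm n hn h hh (hcop h hh)).2
    · have e3 : a n = 0 := if_neg hg
      rw [good_PH] at hg
      push Not at hg
      obtain ⟨h, hh, hn2⟩ := hg
      have e4 : ∏ h ∈ H, (rhoW W (n + 1 + (y + h)) * Real.log y) = 0 := by
        refine Finset.prod_eq_zero hh ?_
        unfold rhoW
        rw [if_neg (by rwa [show n + 1 + (y + h) = n + 1 + y + h by ring]), zero_mul]
      rw [e3, e4]
      simp
  set G := ∑ n ∈ Finset.range M, a n with hG
  have hGM : G ≤ M := by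
    have := Finset.sum_le_card_nsmul (Finset.range M) a 1 fun n _ => (ha01 n).2
    simpa using this
  have hG0 : 0 ≤ G := Finset.sum_nonneg fun n _ => (ha01 n).1
  have s1 : EE (rhoW W) M (sh H y) * Real.log y ^ k ≤ G * c ^ k := by
    have q1 : EE (rhoW W) M (sh H y) * Real.log y ^ k =
        ∑ n ∈ Finset.range M, (∏ g ∈ sh H y, rhoW W (n + 1 + g)) * Real.log y ^ k := Finset.sum_mul _ _ _
    have q2 : G * c ^ k = ∑ n ∈ Finset.range M, a n * c ^ k := Finset.sum_mul _ _ _
    rw [q1, q2]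
    exact Finset.sum_le_sum fun n hn => (e1 n hn).2
  have s2 : G * (c ^ k - ε / 2) ≤ EE (rhoW W) M (sh H y) * Real.log y ^ k := by
    have q1 : EE (rhoW W) M (sh H y) * Real.log y ^ k =
        ∑ n ∈ Finset.range M, (∏ g ∈ sh H y, rhoW W (n + 1 + g)) * Real.log y ^ k := Finset.sum_mul _ _ _
    have q2 : G * (c ^ k - ε / 2) = ∑ n ∈ Finset.range M, a n * (c ^ k - ε / 2) := Finset.sum_mul _ _ _
    rw [q1, q2]
    exact Finset.sum_le_sum fun n hn => (e1 n hn).1
  -- the count
  set d := (Nat.count (good (PH H) W) W : ℝ) / W with hd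
  have hcount : G = (Nat.count (good (PH H) W) (y + 1 + M) : ℝ) - Nat.count (good (PH H) W) (y + 1) := by
    rw [Nat.count_add]
    push_cast
    rw [add_sub_cancel_left, hG, Nat.count_eq_card_filter_range, Finset.card_filter]
    push_cast
    refine Finset.sum_congr rfl fun n _ => ?_
    simp only [ha]
    rw [show n + 1 + y = y + 1 + n by ring]
  have hG2 : |G - M * d| ≤ 2 * W := by
    have g1 := count_periodic (good (PH H) W) W hW (good_periodic (PH H) W) (y + 1 + M)
    have g2 := count_periodic (good (PH H) W) W hW (good_periodic (PH H) W) (y + 1)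
    rw [hcount]
    have e5 : (Nat.count (good (PH H) W) (y + 1 + M) : ℝ) - Nat.count (good (PH H) W) (y + 1) - M * d =
        ((Nat.count (good (PH H) W) (y + 1 + M) : ℝ) - ((y + 1 + M : ℕ) : ℝ) * d) -
          ((Nat.count (good (PH H) W) (y + 1) : ℝ) - ((y + 1 : ℕ) : ℝ) * d) := by
      push_cast
      ring
    rw [e5]
    exact (abs_sub _ _).trans (by linarith)
  have hS : singH Q H = d * c ^ k := (singH_eq Q hQ H).symm
  have hWM : c ^ k * (2 * W) / M ≤ ε / 2 := by
    refine le_trans ?_ hy3.le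
    apply div_le_div_of_nonneg_left (by positivity) (by linarith) hM1
  rw [hS, div_sub' hM0.ne', abs_div, abs_of_pos hM0, div_le_iff₀ hM0]
  rw [div_le_iff₀ hM0] at hWM
  have h5 := abs_le.1 hG2
  have hck : 0 ≤ c ^ k := by positivity
  rw [abs_le]
  constructor
  · have h6 : c ^ k * (M * d - 2 * W) ≤ c ^ k * G := mul_le_mul_of_nonneg_left (by linarith) hck
    have h7 : G * (ε / 2) ≤ M * (ε / 2) := mul_le_mul_of_nonneg_right hGM (by linarith)
    nlinarith
  · have h6 : c ^ k * G ≤ c ^ k * (M * d + 2 * W) := mul_le_mul_of_nonneg_left (by linarith) hck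
    nlinarith

lemma rho_small (W y m : ℕ) (hy : 1 < y) (hm : y ≤ m) : rhoW W m ≤ ((W : ℝ) / Nat.totient W) / Real.log y := by
  have hy' : (1 : ℝ) < y := by exact_mod_cast hy
  have h0 : (0 : ℝ) ≤ (W : ℝ) / Nat.totient W := by positivity
  have hl := Real.log_pos hy'
  unfold rhoW
  split_ifs
  · refine (min_le_right _ _).trans ?_
    exact div_le_div_of_nonneg_left h0 hl (Real.log_le_log (by linarith) (by exact_mod_cast hm))
  · positivity

variable {Ω : Type} {m0 : MeasurableSpace Ω} {μ : Measure Ω} [IsProbabilityMeasure μ]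
  {ℱ : Filtration ℕ m0} {A : ℕ → Set Ω}

/-- the weights before the last element are small -/
lemma wt_small (W y : ℕ) (hy : 1 < y) (H : Finset ℕ) (hH : ∀ h ∈ H, y ≤ h) (g g' : ℕ) (hg' : g' ∈ H) (hgg : g < g')
    (k : ℕ) (ω : Ω) : wt A (rhoW W) H g k ω ≤ ((W : ℝ) / Nat.totient W) / Real.log y := by
  unfold wt
  have h1 : 0 ≤ ∏ h ∈ H.filter (· < g), In A (k + 1 + h) ω := Finset.prod_nonneg fun h _ => In_nonneg _ _
  have h2 : ∏ h ∈ H.filter (· < g), In A (k + 1 + h) ω ≤ 1 := Finset.prod_le_one (fun h _ => In_nonneg _ _) fun h _ => In_le _ _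
  have hmem : g' ∈ H.filter (g < ·) := Finset.mem_filter.2 ⟨hg', hgg⟩
  have h3 : 0 ≤ ∏ h ∈ (H.filter (g < ·)).erase g', rhoW W (k + 1 + h) := Finset.prod_nonneg fun h _ => rhoW_nonneg _ _
  have h4 : ∏ h ∈ (H.filter (g < ·)).erase g', rhoW W (k + 1 + h) ≤ 1 :=
    Finset.prod_le_one (fun h _ => rhoW_nonneg _ _) fun h _ => rhoW_le _ _
  have h5 := rho_small W y (k + 1 + g') hy (by have := hH g' hg'; omega)
  have h6 := rhoW_nonneg W (k + 1 + g')
  rw [← Finset.mul_prod_erase _ _ hmem]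
  calc (∏ h ∈ H.filter (· < g), In A (k + 1 + h) ω) * (rhoW W (k + 1 + g') * ∏ h ∈ (H.filter (g < ·)).erase g', rhoW W (k + 1 + h))
      ≤ 1 * (rhoW W (k + 1 + g') * 1) := by
        apply mul_le_mul h2 (mul_le_mul_of_nonneg_left h4 h6) (by positivity) (by norm_num)
    _ ≤ _ := by linarith

end Pool.Agent.K4H19.QU
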