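import Pool.Agent.K4H19.QU.Gap

set_option autoImplicit false
set_option linter.unusedSectionVars false

/-! # The law of the maximal gap -/

open MeasureTheory Filter Set
open scoped ENNReal Topology

namespace Pool.Agent.K4H19.QU

open Pool.Agent.R528.RM

/-- lengths of empty windows -/
def emptyLen (S : Set ℕ) (H : Finset ℕ) (x : ℕ) : Set ℕ :=
  {g : ℕ | ∃ y ≤ x, ∀ m, y < m → m ≤ y + g → ¬ ∀ h ∈ H, m + h ∈ S}

lemma tupCount_zero (S : Set ℕ) (H : Finset ℕ) (y M : ℕ) :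
    tupCount S H y M = 0 ↔ ∀ m, y < m → m ≤ y + M → ¬ ∀ h ∈ H, m + h ∈ S := by
  unfold tupCount
  rw [Set.ncard_eq_zero ((Set.finite_Iic (y + M)).subset fun m hm => hm.2.1)]
  constructor
  · intro h m h1 h2 h3
    have : m ∈ {m : ℕ | y < m ∧ m ≤ y + M ∧ ∀ h ∈ H, m + h ∈ S} := ⟨h1, h2, h3⟩
    rw [h] at this
    exact this
  · intro h
    ext m
    simp only [Set.mem_ofPred_eq, Set.mem_empty_iff_false, iff_false]
    rintro ⟨h1, h2, h3⟩
    exact h m h1 h2 h3

lemma zero_mem_emptyLen (S : Set ℕ) (H : Finset ℕ) (x : ℕ) : 0 ∈ emptyLen S H x :=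
  ⟨0, Nat.zero_le _, fun m h1 h2 => by omega⟩

lemma emptyLen_mono (S : Set ℕ) (H : Finset ℕ) {x x' : ℕ} (h : x ≤ x') : emptyLen S H x ⊆ emptyLen S H x' := by
  rintro g ⟨y, hy, h2⟩
  exact ⟨y, hy.trans h, h2⟩

/-- deterministic part: upper bound -/
lemma emptyLen_upper {S : Set ℕ} {H : Finset ℕ} {D : ℝ} (hD : 0 ≤ D) {k Y : ℕ} (hY : 1 ≤ Y)
    (h : ∀ y, Y ≤ y → ∀ M : ℕ, D * Real.log y ^ k ≤ M → 0 < tupCount S H y M) {x : ℕ} (hx : Y ≤ x) {g : ℕ}
    (hg : g ∈ emptyLen S H x) : (g : ℝ) ≤ Y + D * Real.log x ^ k := by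
  obtain ⟨y, hyx, hy⟩ := hg
  have hlog : ∀ z : ℕ, 1 ≤ z → z ≤ x → D * Real.log z ^ k ≤ D * Real.log x ^ k := by
    intro z hz hzx
    have h1 : (1 : ℝ) ≤ z := by exact_mod_cast hz
    have h2 : Real.log z ≤ Real.log x := Real.log_le_log (by linarith) (by exact_mod_cast hzx)
    exact mul_le_mul_of_nonneg_left (pow_le_pow_left₀ (Real.log_nonneg h1) h2 _) hD
  rcases le_or_gt Y y with h1 | h1
  · by_contra hcon
    push Not at hcon
    have h2 := h y h1 g (by
      have h3 := hlog y (by omega) hyx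
      have h4 : (0 : ℝ) ≤ Y := Nat.cast_nonneg _
      linarith)
    have h3 := (tupCount_zero S H y g).2 hy
    omega
  · by_contra hcon
    push Not at hcon
    have hgY : Y ≤ g := by
      have h3 : (Y : ℝ) ≤ g := by
        have h4 : 0 ≤ D * Real.log x ^ k := mul_nonneg hD (pow_nonneg (Real.log_nonneg (by exact_mod_cast (by omega : 1 ≤ x))) _)
        linarith
      exact_mod_cast h3
    have h2 := h Y le_rfl (g - Y) (by
      rw [Nat.cast_sub hgY]
      have h3 := hlog Y hY hx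
      linarith)
    have h3 := (tupCount_zero S H Y (g - Y)).2 fun m hm1 hm2 => hy m (by omega) (by omega)
    omega

variable {Ω : Type} {m0 : MeasurableSpace Ω} {μ : Measure Ω} [IsProbabilityMeasure μ]
  {ℱ : Filtration ℕ m0} {A : ℕ → Set Ω}

theorem gap_law (hA : ∀ n, MeasurableSet[ℱ n] (A n)) (Q : Finset ℕ) (hQ : ∀ p ∈ Q, p.Prime)
    (hprof : ∀ᵐ ω ∂μ, ∀ ε : ℝ, 0 < ε → ∀ᶠ n : ℕ in atTop,
      |dens μ ℱ A n ω - rhoW (∏ p ∈ Q, p) (n + 1)| ≤ ε * rhoW (∏ p ∈ Q, p) (n + 1))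
    (H : Finset ℕ) (hHne : H.Nonempty) (hS : 0 < singH Q H) :
    ∀ᵐ ω ∂μ, (∀ x, BddAbove (emptyLen {a | ω ∈ A a} H x)) ∧
      Tendsto (fun x : ℕ => (sSup (emptyLen {a | ω ∈ A a} H x) : ℕ) / Real.log x ^ (H.card + 1)) atTop (𝓝 (1 / singH Q H)) ∧
      ∀ δ : ℝ, 0 < δ → ∀ᶠ x : ℕ in atTop, ∃ y : ℕ, x ≤ y ∧ y ≤ 2 * x ∧ ∀ m : ℕ, y < m →
        (m : ℝ) ≤ y + (1 - δ) * Real.log x ^ (H.card + 1) / singH Q H → ¬ ∀ h ∈ H, ω ∈ A (m + h) := by
  classical
  set k := H.card with hkdef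
  set S := singH Q H with hSdef
  have hup : ∀ j : ℕ, ∀ᵐ ω ∂μ, ∀ᶠ y : ℕ in atTop, ∀ M : ℕ, (1 + 1 / ((j : ℝ) + 2)) * Real.log y ^ (k + 1) / S ≤ M →
      0 < tupCount {a | ω ∈ A a} H y M := fun j =>
    upper_half (μ := μ) hA Q hQ hprof H hHne hS (by positivity) (by
      rw [div_le_one (by positivity)]; have : (0 : ℝ) ≤ j := Nat.cast_nonneg _; linarith)
  have hlow : ∀ j : ℕ, ∀ᵐ ω ∂μ, ∀ᶠ x : ℕ in atTop, ∃ y : ℕ, x ≤ y ∧ y ≤ 2 * x ∧ ∀ M : ℕ,
      (M : ℝ) ≤ (1 - 1 / ((j : ℝ) + 2)) * Real.log x ^ (k + 1) / S → tupCount {a | ω ∈ A a} H y M = 0 := fun j =>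
    lower_half (μ := μ) hA Q hQ hprof H hHne hS (by positivity) (by
      rw [div_lt_one (by positivity)]; have : (0 : ℝ) ≤ j := Nat.cast_nonneg _; linarith)
  rw [← ae_all_iff] at hup hlow
  filter_upwards [hup, hlow] with ω hω1 hω2
  have hbd : ∀ j : ℕ, ∃ Y : ℕ, ∀ x, Y ≤ x → ∀ g ∈ emptyLen {a | ω ∈ A a} H x,
      (g : ℝ) ≤ Y + (1 + 1 / ((j : ℝ) + 2)) / S * Real.log x ^ (k + 1) := by
    intro j
    obtain ⟨Y, hY⟩ := eventually_atTop.1 (hω1 j)
    refine ⟨max Y 1, fun x hx g hg => ?_⟩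
    refine emptyLen_upper (D := (1 + 1 / ((j : ℝ) + 2)) / S) (k := k + 1) (by positivity) (le_max_right Y 1) ?_ hx hg
    intro y hy M hM
    refine hY y ((le_max_left _ _).trans hy) M (le_trans (le_of_eq ?_) hM)
    ring
  have hB : ∀ x, BddAbove (emptyLen {a | ω ∈ A a} H x) := by
    intro x
    obtain ⟨Y, hY⟩ := hbd 0
    refine BddAbove.mono (emptyLen_mono _ H (le_max_left x Y)) ?_
    obtain ⟨N, hN⟩ := exists_nat_ge ((Y : ℝ) + (1 + 1 / (((0 : ℕ) : ℝ) + 2)) / S * Real.log ((max x Y : ℕ) : ℝ) ^ (k + 1))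
    refine ⟨N, fun g hg => ?_⟩
    have h1 := hY (max x Y) (le_max_right _ _) g hg
    exact_mod_cast h1.trans hN
  have tl : Tendsto (fun x : ℕ => Real.log x ^ (k + 1)) atTop atTop := (tendsto_pow_atTop (by omega)).comp tendsto_log
  refine ⟨hB, ?_, ?_⟩
  · rw [Metric.tendsto_nhds]
    intro ε hε
    -- choose j
    obtain ⟨j, hj⟩ : ∃ j : ℕ, 1 / ((j : ℝ) + 2) < min (ε * S / 4) 1 := by
      obtain ⟨j, hj⟩ := exists_nat_one_div_lt (show (0 : ℝ) < min (ε * S / 4) 1 by positivity)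
      refine ⟨j, lt_of_le_of_lt ?_ hj⟩
      exact one_div_le_one_div_of_le (by positivity) (by linarith)
    have hj1 : 1 / ((j : ℝ) + 2) < ε * S / 4 := hj.trans_le (min_le_left _ _)
    have hj2 : 1 / ((j : ℝ) + 2) < 1 := hj.trans_le (min_le_right _ _)
    have hj0 : 0 < 1 / ((j : ℝ) + 2) := by positivity
    set θ := 1 / ((j : ℝ) + 2) with hθ
    obtain ⟨Y, hY⟩ := hbd j
    have t1 : Tendsto (fun x : ℕ => (Y : ℝ) / Real.log x ^ (k + 1)) atTop (𝓝 0) := tendsto_const_nhds.div_atTop tl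
    -- the ratio of the logarithms
    have t2 : Tendsto (fun x : ℕ => (Real.log ((x / 2 : ℕ) : ℝ) / Real.log x) ^ (k + 1)) atTop (𝓝 1) := by
      have h1 : Tendsto (fun x : ℕ => Real.log ((x / 2 : ℕ) : ℝ) / Real.log x) atTop (𝓝 1) := by
        have h2 : Tendsto (fun x : ℕ => 1 - Real.log 4 / Real.log x) atTop (𝓝 (1 - 0)) :=
          tendsto_const_nhds.sub (tendsto_const_nhds.div_atTop tendsto_log)
        rw [sub_zero] at h2
        refine tendsto_of_tendsto_of_tendsto_of_le_of_le' h2 tendsto_const_nhds ?_ ?_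
        · filter_upwards [eventually_ge_atTop 4] with x hx
          have hx0 : (4 : ℝ) ≤ x := by exact_mod_cast hx
          have hl : 0 < Real.log (x : ℝ) := Real.log_pos (by linarith)
          rw [le_div_iff₀ hl, sub_mul, div_mul_cancel₀ _ hl.ne', one_mul, ← Real.log_div (by linarith) (by norm_num)]
          apply Real.log_le_log (by positivity)
          have h3 : x ≤ 4 * (x / 2) := by omega
          have h4 : (x : ℝ) ≤ 4 * ((x / 2 : ℕ) : ℝ) := by exact_mod_cast h3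
          linarith
        · filter_upwards [eventually_ge_atTop 4] with x hx
          have hx0 : (4 : ℝ) ≤ x := by exact_mod_cast hx
          have hl : 0 < Real.log (x : ℝ) := Real.log_pos (by linarith)
          rw [div_le_one hl]
          apply Real.log_le_log
          · exact_mod_cast (by omega : 0 < x / 2)
          · exact_mod_cast Nat.div_le_self x 2
      have := h1.pow (k + 1)
      rwa [one_pow] at this
    have t3 : Tendsto (fun x : ℕ => x / 2) atTop atTop := Nat.tendsto_div_const_atTop (by norm_num)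
    have t4 : Tendsto (fun x : ℕ => (1 : ℝ) / Real.log x ^ (k + 1)) atTop (𝓝 0) := tendsto_const_nhds.div_atTop tl
    have hSε : 0 < ε * S / 4 := by positivity
    filter_upwards [t1.eventually (gt_mem_nhds (show (0 : ℝ) < ε / 4 by positivity)), eventually_ge_atTop Y,
      t2.eventually (lt_mem_nhds (show (1 : ℝ) - ε * S / 4 < 1 by linarith)), t3.eventually (hω2 j), eventually_ge_atTop 4,
      t4.eventually (gt_mem_nhds (show (0 : ℝ) < ε / 4 by positivity))] with x hx1 hxY hx2 hx3 hx4 hx5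
    have hx0 : (4 : ℝ) ≤ x := by exact_mod_cast hx4
    have hl : 0 < Real.log (x : ℝ) := Real.log_pos (by linarith)
    have hL : 0 < Real.log (x : ℝ) ^ (k + 1) := by positivity
    have hmem : sSup (emptyLen {a | ω ∈ A a} H x) ∈ emptyLen {a | ω ∈ A a} H x :=
      Nat.sSup_mem ⟨0, zero_mem_emptyLen _ H x⟩ (hB x)
    have hupper := hY x hxY _ hmem
    have h1 : ((sSup (emptyLen {a | ω ∈ A a} H x) : ℕ) : ℝ) / Real.log x ^ (k + 1) < 1 / S + ε := by
      have h2 : ((sSup (emptyLen {a | ω ∈ A a} H x) : ℕ) : ℝ) / Real.log x ^ (k + 1) ≤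
          Y / Real.log x ^ (k + 1) + (1 + θ) / S := by
        rw [div_le_iff₀ hL, add_mul, div_mul_cancel₀ _ hL.ne']
        exact hupper
      have h3 : (1 + θ) / S = 1 / S + θ / S := by ring
      have h4 : θ / S < ε / 4 := by
        rw [div_lt_iff₀ hS]
        linarith
      linarith
    have h2 : 1 / S - ε < ((sSup (emptyLen {a | ω ∈ A a} H x) : ℕ) : ℝ) / Real.log x ^ (k + 1) := by
      obtain ⟨y, hy1, hy2, hy3⟩ := hx3
      set V := (1 - θ) * Real.log ((x / 2 : ℕ) : ℝ) ^ (k + 1) / S with hV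
      have hlx2 : 0 ≤ Real.log ((x / 2 : ℕ) : ℝ) := Real.log_nonneg (by exact_mod_cast (by omega : 1 ≤ x / 2))
      have hV0 : 0 ≤ V := div_nonneg (mul_nonneg (by linarith) (by positivity)) hS.le
      have hg : ⌊V⌋₊ ∈ emptyLen {a | ω ∈ A a} H x :=
        ⟨y, by omega, (tupCount_zero _ H y _).1 (hy3 _ (Nat.floor_le hV0))⟩
      have hle := le_csSup (hB x) hg
      have h3 : V - 1 < ((sSup (emptyLen {a | ω ∈ A a} H x) : ℕ) : ℝ) := by
        have h4 := Nat.lt_floor_add_one V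
        have h5 : ((⌊V⌋₊ : ℕ) : ℝ) ≤ ((sSup (emptyLen {a | ω ∈ A a} H x) : ℕ) : ℝ) := by exact_mod_cast hle
        linarith
      rw [lt_div_iff₀ hL]
      refine lt_of_le_of_lt ?_ h3
      rw [div_pow, lt_div_iff₀ hL] at hx2
      rw [div_lt_iff₀ hL] at hx5
      have h6 : (1 - θ) * ((1 - ε * S / 4) * Real.log x ^ (k + 1)) / S ≤ V := by
        rw [hV]
        apply div_le_div_of_nonneg_right _ hS.le
        exact mul_le_mul_of_nonneg_left hx2.le (by linarith)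
      have h7 : (1 / S - ε / 2) * Real.log x ^ (k + 1) ≤ (1 - θ) * ((1 - ε * S / 4) * Real.log x ^ (k + 1)) / S := by
        rw [show (1 - θ) * ((1 - ε * S / 4) * Real.log x ^ (k + 1)) / S = ((1 - θ) * (1 - ε * S / 4) / S) * Real.log x ^ (k + 1) by ring]
        apply mul_le_mul_of_nonneg_right _ hL.le
        rw [le_div_iff₀ hS, sub_mul, div_mul_cancel₀ _ hS.ne']
        nlinarith
      nlinarith
    rw [Real.dist_eq, abs_lt]
    constructor <;> linarith
  · intro δ hδ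
    obtain ⟨j, hj⟩ : ∃ j : ℕ, 1 / ((j : ℝ) + 2) < δ := by
      obtain ⟨j, hj⟩ := exists_nat_one_div_lt hδ
      refine ⟨j, lt_of_le_of_lt ?_ hj⟩
      exact one_div_le_one_div_of_le (by positivity) (by linarith)
    filter_upwards [hω2 j, eventually_ge_atTop 2] with x hx hx2
    have hx0 : (2 : ℝ) ≤ x := by exact_mod_cast hx2
    have hl : 0 < Real.log (x : ℝ) := Real.log_pos (by linarith)
    obtain ⟨y, hy1, hy2, hy3⟩ := hx
    refine ⟨y, hy1, hy2, fun m hm1 hm2 => ?_⟩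
    have h1 := hy3 (m - y) (by
      rw [Nat.cast_sub hm1.le]
      have h2 : (1 - δ) * Real.log x ^ (k + 1) / S ≤ (1 - 1 / ((j : ℝ) + 2)) * Real.log x ^ (k + 1) / S := by
        apply div_le_div_of_nonneg_right _ hS.le
        exact mul_le_mul_of_nonneg_right (by linarith) (by positivity)
      linarith)
    exact (tupCount_zero _ H y (m - y)).1 h1 m hm1 (by omega)

end Pool.Agent.K4H19.QU
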