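import Pool.Agent.K4H19.QU.AS

set_option autoImplicit false
set_option linter.unusedSectionVars false

/-! # Between consecutive powers -/

open MeasureTheory Filter Set
open scoped ENNReal Topology

namespace Pool.Agent.K4H19.QU

open Pool.Agent.R528.RM

/-- the number of tuples between `a` and `b` -/
noncomputable def tupBetween (S : Set ℕ) (H : Finset ℕ) (a b : ℕ) : ℕ :=
  Set.ncard {m : ℕ | a < m ∧ m < b ∧ ∀ h ∈ H, m + h < b ∧ m + h ∈ S}

lemma between_eq (S : Set ℕ) (H : Finset ℕ) (a b : ℕ) (hb : a + 1 + H.sup id ≤ b) :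
    tupBetween S H a b = tupCount S H a (b - (a + 1 + H.sup id)) := by
  unfold tupBetween tupCount
  congr 1
  ext m
  simp only [Set.mem_ofPred_eq]
  constructor
  · rintro ⟨h1, h2, h3⟩
    refine ⟨h1, ?_, fun h hh => (h3 h hh).2⟩
    have h4 : m + H.sup id < b := by
      rcases H.eq_empty_or_nonempty with h | h
      · subst h
        simpa using h2
      · obtain ⟨c, hc, hc2⟩ := Finset.exists_mem_eq_sup H h id
        rw [hc2]
        exact (h3 c hc).1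
    omega
  · rintro ⟨h1, h2, h3⟩
    refine ⟨h1, by omega, fun h hh => ⟨?_, h3 h hh⟩⟩
    have : h ≤ H.sup id := Finset.le_sup (f := id) hh
    omega

lemma pow_gap (r n : ℕ) : (r : ℝ) * (n : ℝ) ^ (r - 1) ≤ ((n : ℝ) + 1) ^ r - (n : ℝ) ^ r ∧
    ((n : ℝ) + 1) ^ r - (n : ℝ) ^ r ≤ r * ((n : ℝ) + 1) ^ (r - 1) := by
  have h1 := geom_sum₂_mul ((n : ℝ) + 1) (n : ℝ) r
  rw [add_sub_cancel_left, mul_one] at h1
  rw [← h1]
  have hn : (0 : ℝ) ≤ n := Nat.cast_nonneg n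
  constructor
  · have h2 : ∑ i ∈ Finset.range r, (n : ℝ) ^ (r - 1) ≤ ∑ i ∈ Finset.range r, ((n : ℝ) + 1) ^ i * (n : ℝ) ^ (r - 1 - i) := by
      refine Finset.sum_le_sum fun i hi => ?_
      have hi' := Finset.mem_range.1 hi
      have e1 : (n : ℝ) ^ (r - 1) = (n : ℝ) ^ i * (n : ℝ) ^ (r - 1 - i) := by
        rw [← pow_add]; congr 1; omega
      rw [e1]
      exact mul_le_mul_of_nonneg_right (pow_le_pow_left₀ hn (by linarith) _) (by positivity)
    simpa using h2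
  · have h2 : ∑ i ∈ Finset.range r, ((n : ℝ) + 1) ^ i * (n : ℝ) ^ (r - 1 - i) ≤ ∑ i ∈ Finset.range r, ((n : ℝ) + 1) ^ (r - 1) := by
      refine Finset.sum_le_sum fun i hi => ?_
      have hi' := Finset.mem_range.1 hi
      have e1 : ((n : ℝ) + 1) ^ (r - 1) = ((n : ℝ) + 1) ^ i * ((n : ℝ) + 1) ^ (r - 1 - i) := by
        rw [← pow_add]; congr 1; omega
      rw [e1]
      exact mul_le_mul_of_nonneg_left (pow_le_pow_left₀ hn (by linarith) _) (by positivity)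
    simpa using h2

lemma window_pow (r : ℕ) (hr : 2 ≤ r) (B : ℕ) :
    Tendsto (fun n : ℕ => (((n + 1) ^ r - (n ^ r + 1 + B) : ℕ) : ℝ) / (r * (n : ℝ) ^ (r - 1))) atTop (𝓝 1) := by
  have hr0 : (0 : ℝ) < r := by exact_mod_cast (by omega : 0 < r)
  have t1 : Tendsto (fun n : ℕ => (((n : ℝ) + 1) / n) ^ (r - 1)) atTop (𝓝 1) := by
    have h1 : Tendsto (fun n : ℕ => ((n : ℝ) + 1) / n) atTop (𝓝 1) := by
      have h2 : Tendsto (fun n : ℕ => 1 + 1 / (n : ℝ)) atTop (𝓝 (1 + 0)) :=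
        tendsto_const_nhds.add (tendsto_const_nhds.div_atTop (tendsto_natCast_atTop_atTop (R := ℝ)))
      rw [add_zero] at h2
      refine h2.congr' ?_
      filter_upwards [eventually_gt_atTop 0] with n hn
      have : (n : ℝ) ≠ 0 := by exact_mod_cast hn.ne'
      field_simp
    have := h1.pow (r - 1)
    rwa [one_pow] at this
  have t2 : Tendsto (fun n : ℕ => ((1 + B : ℝ)) / (r * (n : ℝ) ^ (r - 1))) atTop (𝓝 0) := by
    refine tendsto_const_nhds.div_atTop ?_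
    exact Tendsto.const_mul_atTop hr0 ((tendsto_pow_atTop (by omega : r - 1 ≠ 0)).comp (tendsto_natCast_atTop_atTop (R := ℝ)))
  have t3 := (tendsto_const_nhds (x := (1 : ℝ))).sub t2
  have t4 := t1.sub t2
  rw [sub_zero] at t3 t4
  refine tendsto_of_tendsto_of_tendsto_of_le_of_le' t3 t4 ?_ ?_
  all_goals
    filter_upwards [eventually_ge_atTop (B + 1)] with n hn
    have hn0 : (0 : ℝ) < n := by exact_mod_cast (by omega : 0 < n)
    obtain ⟨g1, g2⟩ := pow_gap r n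
    have hle : n ^ r + 1 + B ≤ (n + 1) ^ r := by
      have h1 : (n : ℝ) ^ 1 ≤ (n : ℝ) ^ (r - 1) := pow_le_pow_right₀ (by exact_mod_cast (by omega : 1 ≤ n)) (by omega)
      have h2 : (1 : ℝ) * (n : ℝ) ^ 1 ≤ r * (n : ℝ) ^ (r - 1) :=
        mul_le_mul (by exact_mod_cast (by omega : 1 ≤ r)) h1 (by positivity) hr0.le
      have h3 : ((B + 1 : ℕ) : ℝ) ≤ n := by exact_mod_cast hn
      push_cast at h3
      have h4 : (n : ℝ) ^ r + 1 + B ≤ ((n : ℝ) + 1) ^ r := by linarith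
      exact_mod_cast h4
    have hp : (0 : ℝ) < r * (n : ℝ) ^ (r - 1) := by positivity
    rw [Nat.cast_sub hle]
    push_cast
  · rw [← sub_nonneg, ← sub_nonneg] 
    rw [show ((n : ℝ) + 1) ^ r - ((n : ℝ) ^ r + 1 + B) = (((n : ℝ) + 1) ^ r - (n : ℝ) ^ r) - (1 + B) by ring, sub_div]
    have : 1 ≤ (((n : ℝ) + 1) ^ r - (n : ℝ) ^ r) / (r * (n : ℝ) ^ (r - 1)) := (one_le_div hp).2 g1
    linarith
  · rw [show ((n : ℝ) + 1) ^ r - ((n : ℝ) ^ r + 1 + B) = (((n : ℝ) + 1) ^ r - (n : ℝ) ^ r) - (1 + B) by ring, sub_div]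
    have e1 : (((n : ℝ) + 1) / n) ^ (r - 1) = (r * ((n : ℝ) + 1) ^ (r - 1)) / (r * (n : ℝ) ^ (r - 1)) := by
      rw [div_pow, mul_div_mul_left _ _ hr0.ne']
    rw [e1]
    have := div_le_div_of_nonneg_right g2 hp.le
    linarith

variable {Ω : Type} {m0 : MeasurableSpace Ω} {μ : Measure Ω} [IsProbabilityMeasure μ]
  {ℱ : Filtration ℕ m0} {A : ℕ → Set Ω}

/-- **(C)** -/
theorem as_powers (hA : ∀ n, MeasurableSet[ℱ n] (A n)) (Q : Finset ℕ) (hQ : ∀ p ∈ Q, p.Prime)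
    (hprof : ∀ᵐ ω ∂μ, ∀ ε : ℝ, 0 < ε → ∀ᶠ n : ℕ in atTop,
      |dens μ ℱ A n ω - rhoW (∏ p ∈ Q, p) (n + 1)| ≤ ε * rhoW (∏ p ∈ Q, p) (n + 1))
    (H : Finset ℕ) (hS : 0 < singH Q H) (r : ℕ) (hr : 2 ≤ r) :
    ∀ᵐ ω ∂μ, Tendsto (fun n : ℕ => (tupBetween {a | ω ∈ A a} H (n ^ r) ((n + 1) ^ r) : ℝ) * (r * Real.log n) ^ H.card /
      (r * (n : ℝ) ^ (r - 1))) atTop (𝓝 (singH Q H)) := by
  classical
  have h0 : ∀ j : ℕ, ∃ K : ℝ, ∀ᵐ ω ∂μ, ∀ᶠ y : ℕ in atTop, ∀ M : ℕ, K * Real.log y ^ (H.card + 1) ≤ M → M ≤ y →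
      |(tupCount {a | ω ∈ A a} H y M : ℝ) * Real.log y ^ H.card / M - singH Q H| ≤ 1 / ((j : ℝ) + 1) :=
    fun j => ⟨_, as_asymp (μ := μ) hA Q hQ hprof H hS (ε := 1 / ((j : ℝ) + 1)) (by positivity) rfl rfl⟩
  choose K hK using h0
  rw [← ae_all_iff] at hK
  filter_upwards [hK] with ω hω
  set k := H.card
  set B := H.sup id with hB
  have hr0 : (0 : ℝ) < r := by exact_mod_cast (by omega : 0 < r)
  have tr := window_pow r hr B
  have ty : Tendsto (fun n : ℕ => n ^ r) atTop atTop := tendsto_pow_atTop (by omega)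
  have hup : ∀ᶠ n : ℕ in atTop, (n + 1) ^ r - (n ^ r + 1 + B) ≤ n ^ r := by
    have t1 : Tendsto (fun n : ℕ => (((n + 1) ^ r - (n ^ r + 1 + B) : ℕ) : ℝ) / (r * (n : ℝ) ^ (r - 1)) * (r / n)) atTop (𝓝 (1 * 0)) :=
      tr.mul (tendsto_const_nhds.div_atTop (tendsto_natCast_atTop_atTop (R := ℝ)))
    rw [mul_zero] at t1
    filter_upwards [t1.eventually (gt_mem_nhds one_pos), eventually_gt_atTop 0] with n hn hn0
    have hn' : (0 : ℝ) < n := by exact_mod_cast hn0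
    have e1 : (n : ℝ) ^ r = (n : ℝ) ^ (r - 1) * n := by rw [← pow_succ]; congr 1; omega
    have e2 : (((n + 1) ^ r - (n ^ r + 1 + B) : ℕ) : ℝ) / (r * (n : ℝ) ^ (r - 1)) * (r / n) =
        (((n + 1) ^ r - (n ^ r + 1 + B) : ℕ) : ℝ) / (n : ℝ) ^ r := by
      rw [e1]; field_simp
    rw [e2, div_lt_one (by positivity)] at hn
    exact_mod_cast hn.le
  have hlow : ∀ K : ℝ, ∀ᶠ n : ℕ in atTop, K * Real.log ((n ^ r : ℕ) : ℝ) ^ (k + 1) ≤ (((n + 1) ^ r - (n ^ r + 1 + B) : ℕ) : ℝ) := by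
    intro K
    have t1 : Tendsto (fun n : ℕ => |K| * r ^ (k + 1) * (Real.log n ^ (k + 1) / n)) atTop (𝓝 (|K| * r ^ (k + 1) * 0)) := by
      refine Tendsto.const_mul _ ?_
      have := (Real.isLittleO_pow_log_id_atTop (n := k + 1)).tendsto_div_nhds_zero
      exact this.comp (tendsto_natCast_atTop_atTop (R := ℝ))
    rw [mul_zero] at t1
    filter_upwards [tr.eventually (lt_mem_nhds (show (1 / 2 : ℝ) < 1 by norm_num)), eventually_gt_atTop 1,
      t1.eventually (gt_mem_nhds (show (0 : ℝ) < 1 / 2 by norm_num))] with n hn hn0 hn1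
    have hn' : (1 : ℝ) < n := by exact_mod_cast hn0
    have hl := Real.log_pos hn'
    have hp : (0 : ℝ) < r * (n : ℝ) ^ (r - 1) := by positivity
    have h1 : (n : ℝ) ≤ r * (n : ℝ) ^ (r - 1) := by
      have h2 : (n : ℝ) ^ 1 ≤ (n : ℝ) ^ (r - 1) := pow_le_pow_right₀ (by linarith) (by omega)
      calc (n : ℝ) = 1 * (n : ℝ) ^ 1 := by ring
        _ ≤ r * (n : ℝ) ^ (r - 1) := mul_le_mul (by exact_mod_cast (by omega : 1 ≤ r)) h2 (by positivity) hr0.le
    rw [lt_div_iff₀ hp] at hn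
    push_cast
    rw [Real.log_pow, mul_pow]
    have h3 : K * ((r : ℝ) ^ (k + 1) * Real.log n ^ (k + 1)) ≤ |K| * ((r : ℝ) ^ (k + 1) * Real.log n ^ (k + 1)) :=
      mul_le_mul_of_nonneg_right (le_abs_self K) (by positivity)
    have h4 : |K| * ((r : ℝ) ^ (k + 1) * Real.log n ^ (k + 1)) = |K| * r ^ (k + 1) * (Real.log n ^ (k + 1) / n) * n := by
      field_simp
    have h5 : |K| * r ^ (k + 1) * (Real.log n ^ (k + 1) / n) * n ≤ 1 / 2 * (r * (n : ℝ) ^ (r - 1)) :=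
      mul_le_mul hn1.le h1 (by positivity) (by norm_num)
    linarith
  have key : Tendsto (fun n : ℕ => (tupBetween {a | ω ∈ A a} H (n ^ r) ((n + 1) ^ r) : ℝ) * (r * Real.log n) ^ k /
      (((n + 1) ^ r - (n ^ r + 1 + B) : ℕ) : ℝ)) atTop (𝓝 (singH Q H)) := by
    rw [Metric.tendsto_atTop']
    intro ε hε
    obtain ⟨j, hj⟩ := exists_nat_one_div_lt hε
    have h1 := ty.eventually (hω j)
    obtain ⟨N, hN⟩ := eventually_atTop.1 (h1.and (hup.and ((hlow (K j)).and (hlow 1))))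
    refine ⟨max N 2, fun n hn => ?_⟩
    have hnN : N ≤ n := (le_max_left _ _).trans hn.le
    have hn2 : 2 < n := lt_of_le_of_lt (le_max_right _ _) hn
    obtain ⟨g1, g2, g3, g4⟩ := hN n hnN
    have h2 := g1 _ g3 g2
    have hn' : (1 : ℝ) < n := by exact_mod_cast (by omega : 1 < n)
    have hl := Real.log_pos hn'
    have hpos : 0 < (((n + 1) ^ r - (n ^ r + 1 + B) : ℕ) : ℝ) := by
      refine lt_of_lt_of_le ?_ g4
      push_cast
      rw [Real.log_pow]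
      positivity
    have hle : n ^ r + 1 + B ≤ (n + 1) ^ r := by
      have : 0 < (n + 1) ^ r - (n ^ r + 1 + B) := by exact_mod_cast hpos
      omega
    rw [between_eq _ _ _ _ hle, Real.dist_eq]
    push_cast at h2
    rw [Real.log_pow] at h2
    push_cast
    exact lt_of_le_of_lt h2 hj
  have h9 := key.mul tr
  rw [mul_one] at h9
  refine h9.congr' ?_
  filter_upwards [hlow 1, eventually_gt_atTop 1] with n hn hn0
  have hn' : (1 : ℝ) < n := by exact_mod_cast hn0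
  have hl := Real.log_pos hn'
  have hpos : 0 < (((n + 1) ^ r - (n ^ r + 1 + B) : ℕ) : ℝ) := by
    refine lt_of_lt_of_le ?_ hn
    push_cast
    rw [Real.log_pow]
    positivity
  field_simp

end Pool.Agent.K4H19.QU
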