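import Pool.Agent.K4H19.QU.Blocks

set_option autoImplicit false
set_option linter.unusedSectionVars false

/-! # The predictable sum of the last element -/

open MeasureTheory Filter Set
open scoped ENNReal Topology

namespace Pool.Agent.K4H19.QU

open Pool.Agent.R528.RM

variable {Ω : Type} {m0 : MeasurableSpace Ω} {μ : Measure Ω} [IsProbabilityMeasure μ]
  {ℱ : Filtration ℕ m0} {A : ℕ → Set Ω}

theorem last_sum {ρ : ℕ → ℝ} (hρ : ∀ n, 0 ≤ ρ n ∧ ρ n ≤ 1) {ω : Ω} {ε : ℝ} (hε : 0 ≤ ε) {y : ℕ}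
    (hN : ∀ n, y ≤ n → |dens μ ℱ A n ω - ρ (n + 1)| ≤ ε * ρ (n + 1))
    (M : ℕ) (H : Finset ℕ) (hH : ∀ g ∈ H, y ≤ g) (hk : 3 * H.card * ε ≤ 1) (g : ℕ) (hgH : g ∈ H)
    (hmax : ∀ a ∈ H, a ≤ g) (hB : ∀ a ∈ H, a < g → ω ∉ BadS μ ℱ A ρ ε M H a) :
    |∑ k ∈ Finset.range M, wt A ρ H g k ω * dens μ ℱ A (g + k) ω - EE ρ M H| ≤ 3 * H.card * ε * EE ρ M H ∧
      TN A ρ M H ∅ ω = ∑ k ∈ Finset.range M, wt A ρ H g k ω * In A (g + k + 1) ω := by
  classical
  have hE0 := EE_nonneg hρ M H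
  have hk1 : (1 : ℝ) ≤ H.card := by exact_mod_cast Finset.card_pos.2 ⟨g, hgH⟩
  have hL : ∀ a ∈ H.erase g, a < g := fun a ha =>
    lt_of_le_of_ne (hmax a (Finset.mem_of_mem_erase ha)) (Finset.ne_of_mem_erase ha)
  have hins : insert g (H.erase g) = H := Finset.insert_erase hgH
  have h1 := chain (μ := μ) hρ hε hN M H hH hk (H.erase g) {g} (by
    intro a ha b hb
    rw [Finset.mem_singleton] at hb
    rw [hb]
    exact hL a ha) (by rw [Finset.union_comm, ← Finset.insert_eq, hins])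
    (fun a ha => hB a (Finset.mem_of_mem_erase ha) (hL a ha))
  obtain ⟨e1, -, h5⟩ := step (μ := μ) hρ hN M (H.erase g) ∅ g (hH g hgH) hL (by simp)
  rw [Finset.union_empty, hins] at e1 h5
  rw [insert_empty_eq] at h5
  refine ⟨?_, e1⟩
  have hcard : ((H.erase g).card : ℝ) = H.card - 1 := by
    rw [Finset.card_erase_of_mem hgH]
    have := Finset.card_pos.2 ⟨g, hgH⟩
    push_cast [Nat.cast_sub this]
    ring
  rw [hcard] at h1
  set T := TN A ρ M (H.erase g) {g} ω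
  set E := EE ρ M H
  have h6 := abs_le.1 h1
  have hε1 : 3 * ((H.card : ℝ) - 1) * ε ≤ 1 := by nlinarith
  have h7 : T ≤ 2 * E := by nlinarith [h6.2]
  have h8 : |∑ k ∈ Finset.range M, wt A ρ H g k ω * dens μ ℱ A (g + k) ω - T| ≤ 2 * ε * E := by
    refine h5.trans ?_
    nlinarith
  calc |∑ k ∈ Finset.range M, wt A ρ H g k ω * dens μ ℱ A (g + k) ω - E| ≤
      |∑ k ∈ Finset.range M, wt A ρ H g k ω * dens μ ℱ A (g + k) ω - T| + |T - E| := abs_sub_le _ _ _
    _ ≤ 2 * ε * E + 3 * (H.card - 1) * ε * E := add_le_add h8 h1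
    _ ≤ 3 * H.card * ε * E := by nlinarith [mul_nonneg hε hE0]

/-- the earlier elements are harmless in all windows of length at least `κ (log y) ^ (k + 1)` -/
theorem small_fixed (hA : ∀ n, MeasurableSet[ℱ n] (A n)) (Q : Finset ℕ) (hQ : ∀ p ∈ Q, p.Prime)
    (H : Finset ℕ) (hHne : H.Nonempty) (hS : 0 < singH Q H) {ε : ℝ} (hε : 0 < ε) (hε1 : ε ≤ 1) {κ : ℝ} (hκ : 0 < κ) :
    ∀ᵐ ω ∂μ, ∀ᶠ y : ℕ in atTop, ∀ M : ℕ, κ * Real.log y ^ (H.card + 1) ≤ M → M ≤ y →
      ∀ g ∈ sh H y, (∃ g' ∈ sh H y, g < g') → ω ∉ BadS μ ℱ A (rhoW (∏ p ∈ Q, p)) ε M (sh H y) g := by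
  classical
  set W := ∏ p ∈ Q, p with hWdef
  set c := (W : ℝ) / Nat.totient W with hc
  have hcpos : 0 < c := cc_pos Q hQ
  set k := H.card with hkdef
  have hk1 : 1 ≤ k := Finset.card_pos.2 hHne
  have hρ : ∀ n, 0 ≤ rhoW W n ∧ rhoW W n ≤ 1 := fun n => ⟨rhoW_nonneg W n, rhoW_le W n⟩
  set Bad : ℕ → Set Ω := fun y => ⋃ M ∈ (Finset.range (y + 1)).filter (fun M : ℕ => κ * Real.log y ^ (k + 1) ≤ M),
    ⋃ g ∈ (sh H y).filter (fun g => ∃ g' ∈ sh H y, g < g'), BadS μ ℱ A (rhoW W) ε M (sh H y) g with hBad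
  have hsum : Summable (fun y : ℕ => (4 * k) * ((y : ℝ) ^ 3)⁻¹) :=
    (Real.summable_nat_pow_inv.2 (by norm_num)).mul_left _
  have hb : ∀ᶠ y in atTop, μ.real (Bad y) ≤ (4 * k) * ((y : ℝ) ^ 3)⁻¹ := by
    filter_upwards [win_main Q hQ H (show 0 < singH Q H / 2 by positivity), eventually_ge_atTop 2,
      tendsto_log.eventually_ge_atTop 1, tendsto_log.eventually_ge_atTop (1 / κ),
      tendsto_log.eventually_ge_atTop (128 * c / (ε ^ 2 * singH Q H * κ))] with y hy hy2 hlog hlogκ hlogc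
    have hy0 : (2 : ℝ) ≤ y := by exact_mod_cast hy2
    have hy1 : 1 < y := by omega
    have hexp : ∀ M ∈ (Finset.range (y + 1)).filter (fun M : ℕ => κ * Real.log y ^ (k + 1) ≤ M),
        ∀ g ∈ (sh H y).filter (fun g => ∃ g' ∈ sh H y, g < g'),
        μ.real (BadS μ ℱ A (rhoW W) ε M (sh H y) g) ≤ 2 * ((y : ℝ) ^ 4)⁻¹ := by
      intro M hM g hg
      rw [Finset.mem_filter, Finset.mem_range] at hM
      obtain ⟨hg1, g', hg', hgg⟩ := Finset.mem_filter.1 hg
      have hMl : Real.log (y : ℝ) ≤ M := by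
        refine le_trans ?_ hM.2
        have h1 : Real.log (y : ℝ) ^ 2 ≤ Real.log (y : ℝ) ^ (k + 1) := pow_le_pow_right₀ hlog (by omega)
        rw [div_le_iff₀ hκ] at hlogκ
        calc Real.log (y : ℝ) = 1 * Real.log (y : ℝ) := by ring
          _ ≤ (Real.log (y : ℝ) * κ) * Real.log (y : ℝ) := mul_le_mul_of_nonneg_right hlogκ (by linarith)
          _ = κ * Real.log (y : ℝ) ^ 2 := by ring
          _ ≤ κ * Real.log (y : ℝ) ^ (k + 1) := mul_le_mul_of_nonneg_left h1 hκ.le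
      have h1 := (abs_le.1 (hy M hMl (by omega))).1
      have hM0 : (0 : ℝ) < M := by linarith
      have hE : singH Q H / 2 * κ * Real.log y ≤ EE (rhoW W) M (sh H y) := by
        have h2 : singH Q H / 2 ≤ EE (rhoW W) M (sh H y) * Real.log (y : ℝ) ^ k / M := by linarith
        rw [le_div_iff₀ hM0] at h2
        have h3 : singH Q H / 2 * (κ * Real.log y ^ (k + 1)) ≤ EE (rhoW W) M (sh H y) * Real.log (y : ℝ) ^ k :=
          (mul_le_mul_of_nonneg_left hM.2 (by positivity)).trans h2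
        have h4 : (0 : ℝ) < Real.log (y : ℝ) ^ k := by positivity
        rw [pow_succ] at h3
        refine le_of_mul_le_mul_right ?_ h4
        linarith
      have hl0 : 0 < Real.log (y : ℝ) := by linarith
      refine (bad_le (μ := μ) hA hρ hε.le hε1 M (sh H y) g (b := c / Real.log y) (by positivity)
        (fun j ω => wt_small W y hy1 (sh H y) (fun h hh => sh_ge hh) g g' hg' hgg j ω)).trans ?_
      apply mul_le_mul_of_nonneg_left _ (by norm_num)
      have e1 : ((y : ℝ) ^ 4)⁻¹ = Real.exp (-((4 : ℕ) * Real.log y)) := by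
        rw [Real.exp_neg, Real.exp_nat_mul, Real.exp_log (by linarith)]
      rw [e1]
      apply Real.exp_le_exp.2
      apply neg_le_neg
      rw [le_div_iff₀ (by positivity)]
      rw [div_le_iff₀ (by positivity)] at hlogc
      have h5 : ε ^ 2 * (singH Q H / 2 * κ * Real.log y) ≤ ε ^ 2 * EE (rhoW W) M (sh H y) :=
        mul_le_mul_of_nonneg_left hE (sq_nonneg ε)
      push_cast
      have h6 : 4 * Real.log (y : ℝ) * (16 * (c / Real.log (y : ℝ))) = 64 * c := by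
        field_simp
        ring
      rw [h6]
      nlinarith
    refine (measureReal_biUnion_finset_le _ _).trans ((Finset.sum_le_sum fun M hM =>
      (measureReal_biUnion_finset_le _ _).trans (Finset.sum_le_sum fun g hg => hexp M hM g hg)).trans ?_)
    rw [Finset.sum_const, Finset.sum_const, nsmul_eq_mul, nsmul_eq_mul]
    have hc : (((Finset.range (y + 1)).filter (fun M : ℕ => κ * Real.log y ^ (k + 1) ≤ M)).card : ℝ) ≤ 2 * y := by
      have h1 := Finset.card_filter_le (Finset.range (y + 1)) (fun M : ℕ => κ * Real.log y ^ (k + 1) ≤ M)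
      rw [Finset.card_range] at h1
      have h2 : (((Finset.range (y + 1)).filter (fun M : ℕ => κ * Real.log y ^ (k + 1) ≤ M)).card : ℝ) ≤ ((y + 1 : ℕ) : ℝ) := by
        exact_mod_cast h1
      push_cast at h2
      linarith
    have hc2 : (((sh H y).filter (fun g => ∃ g' ∈ sh H y, g < g')).card : ℝ) ≤ k := by
      have h1 := Finset.card_filter_le (sh H y) (fun g => ∃ g' ∈ sh H y, g < g')
      rw [sh_card] at h1
      exact_mod_cast h1
    calc _ ≤ (2 * y : ℝ) * (k * (2 * ((y : ℝ) ^ 4)⁻¹)) :=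
          mul_le_mul hc (mul_le_mul_of_nonneg_right hc2 (by positivity)) (by positivity) (by positivity)
      _ = _ := by
        have : (y : ℝ) ≠ 0 := by linarith
        field_simp
        ring
  filter_upwards [bc_real (μ := μ) hsum hb] with ω hω
  filter_upwards [hω] with y hy M hM1 hM2 g hg hg2 hcon
  apply hy
  simp only [hBad, Set.mem_iUnion]
  exact ⟨M, Finset.mem_filter.2 ⟨Finset.mem_range.2 (by omega), hM1⟩, g, Finset.mem_filter.2 ⟨hg, hg2⟩, hcon⟩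

/-- the last predictable sum, in all windows -/
theorem last_as (hA : ∀ n, MeasurableSet[ℱ n] (A n)) (Q : Finset ℕ) (hQ : ∀ p ∈ Q, p.Prime)
    (hprof : ∀ᵐ ω ∂μ, ∀ ε : ℝ, 0 < ε → ∀ᶠ n : ℕ in atTop,
      |dens μ ℱ A n ω - rhoW (∏ p ∈ Q, p) (n + 1)| ≤ ε * rhoW (∏ p ∈ Q, p) (n + 1))
    (H : Finset ℕ) (hHne : H.Nonempty) (hS : 0 < singH Q H) {δ : ℝ} (hδ : 0 < δ) {κ : ℝ} (hκ : 0 < κ) :
    ∀ᵐ ω ∂μ, ∀ᶠ y : ℕ in atTop, ∀ M : ℕ, κ * Real.log y ^ (H.card + 1) ≤ M → M ≤ y →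
      |(∑ k ∈ Finset.range M, wt A (rhoW (∏ p ∈ Q, p)) (sh H y) (y + H.sup id) k ω * dens μ ℱ A (y + H.sup id + k) ω) *
          Real.log y ^ H.card / M - singH Q H| ≤ δ ∧
        (tupCount {a | ω ∈ A a} H y M : ℝ) =
          ∑ k ∈ Finset.range M, wt A (rhoW (∏ p ∈ Q, p)) (sh H y) (y + H.sup id) k ω * In A (y + H.sup id + k + 1) ω := by
  classical
  set W := ∏ p ∈ Q, p with hWdef
  set k := H.card with hkdef
  set S := singH Q H with hSdef
  have hk1 : 1 ≤ k := Finset.card_pos.2 hHne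
  have hk0 : (0 : ℝ) < k := by exact_mod_cast hk1
  have hρ : ∀ n, 0 ≤ rhoW W n ∧ rhoW W n ≤ 1 := fun n => ⟨rhoW_nonneg W n, rhoW_le W n⟩
  have hm : 0 < min 1 (δ / 2) := lt_min one_pos (by positivity)
  obtain ⟨ε, hε⟩ : ∃ ε : ℝ, ε = min 1 (δ / 2) / (3 * k * (S + 1)) := ⟨_, rfl⟩
  have hε0 : 0 < ε := by rw [hε]; positivity
  have hden : (3 * k * (S + 1)) * ε = min 1 (δ / 2) := by
    rw [hε]; field_simp
  have hε3 : 3 * k * (S + 1) * ε ≤ 1 := by rw [hden]; exact min_le_left _ _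
  have hε4 : 3 * k * (S + 1) * ε ≤ δ / 2 := by rw [hden]; exact min_le_right _ _
  have hkS : 0 ≤ 3 * (k : ℝ) * S * ε := by positivity
  have hε5 : 3 * k * ε ≤ 1 := by nlinarith
  have hε1 : ε ≤ 1 := by
    have : (1 : ℝ) ≤ k := by exact_mod_cast hk1
    nlinarith
  filter_upwards [small_fixed (μ := μ) hA Q hQ H hHne hS hε0 hε1 hκ, hprof] with ω hω hω2
  obtain ⟨N, hN⟩ := eventually_atTop.1 (hω2 ε hε0)
  filter_upwards [hω, eventually_ge_atTop N, win_main Q hQ H hm, tendsto_log.eventually_ge_atTop 1,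
    tendsto_log.eventually_ge_atTop (1 / κ)] with y hy hyN hwin hlog hlogκ M hM1 hM2
  have hMl : Real.log (y : ℝ) ≤ M := by
    refine le_trans ?_ hM1
    have h1 : Real.log (y : ℝ) ^ 2 ≤ Real.log (y : ℝ) ^ (k + 1) := pow_le_pow_right₀ hlog (by omega)
    rw [div_le_iff₀ hκ] at hlogκ
    calc Real.log (y : ℝ) = 1 * Real.log (y : ℝ) := by ring
      _ ≤ (Real.log (y : ℝ) * κ) * Real.log (y : ℝ) := mul_le_mul_of_nonneg_right hlogκ (by linarith)
      _ = κ * Real.log (y : ℝ) ^ 2 := by ring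
      _ ≤ κ * Real.log (y : ℝ) ^ (k + 1) := mul_le_mul_of_nonneg_left h1 hκ.le
  have hM0 : (0 : ℝ) < M := by linarith
  obtain ⟨b, hb, hb2⟩ := Finset.exists_mem_eq_sup H hHne id
  have hmem : y + H.sup id ∈ sh H y := mem_sh.2 ⟨b, hb, by rw [hb2]; rfl⟩
  have hmax : ∀ a ∈ sh H y, a ≤ y + H.sup id := by
    intro a ha
    obtain ⟨h, hh, rfl⟩ := mem_sh.1 ha
    have : h ≤ H.sup id := Finset.le_sup (f := id) hh
    omega
  obtain ⟨h1, h2⟩ := last_sum (μ := μ) (ℱ := ℱ) (A := A) hρ (ω := ω) hε0.le (y := y) (fun n hn => hN n (by omega)) M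
    (sh H y) (fun g hg => sh_ge hg) (by rw [sh_card]; exact hε5) (y + H.sup id) hmem hmax
    (fun a ha hlt => hy M hM1 hM2 a ha ⟨_, hmem, hlt⟩)
  rw [sh_card] at h1
  refine ⟨?_, by rw [← TN_count (A := A) (rhoW W) H y M ω]; exact h2⟩
  have h3 := hwin M hMl hM2
  set T := ∑ k ∈ Finset.range M, wt A (rhoW W) (sh H y) (y + H.sup id) k ω * dens μ ℱ A (y + H.sup id + k) ω
  set E := EE (rhoW W) M (sh H y)
  have hL : (0 : ℝ) < Real.log (y : ℝ) ^ k / M := by positivity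
  have h5 : E * Real.log (y : ℝ) ^ k / M ≤ S + 1 := by
    have := (abs_le.1 (h3.trans (min_le_left _ _))).2
    linarith
  have h4 : |T * Real.log y ^ k / M - E * Real.log y ^ k / M| ≤ 3 * k * ε * (S + 1) := by
    have e1 : T * Real.log y ^ k / M - E * Real.log y ^ k / M = (T - E) * (Real.log y ^ k / M) := by ring
    rw [e1, abs_mul, abs_of_pos hL]
    calc |T - E| * (Real.log y ^ k / M) ≤ (3 * k * ε * E) * (Real.log y ^ k / M) := mul_le_mul_of_nonneg_right h1 hL.le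
      _ = 3 * k * ε * (E * Real.log y ^ k / M) := by ring
      _ ≤ _ := mul_le_mul_of_nonneg_left h5 (by positivity)
  calc |T * Real.log y ^ k / M - S| ≤ |T * Real.log y ^ k / M - E * Real.log y ^ k / M| + |E * Real.log y ^ k / M - S| :=
        abs_sub_le _ _ _
    _ ≤ 3 * k * ε * (S + 1) + δ / 2 := add_le_add h4 (h3.trans (min_le_right _ _))
    _ ≤ δ := by linarith

end Pool.Agent.K4H19.QU
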