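import Pool.Agent.K4H19.QU.Exp

set_option autoImplicit false
set_option linter.unusedSectionVars false

/-! # From the partial tuples to the tuples in a window -/

open MeasureTheory Filter Set
open scoped ENNReal Topology

namespace Pool.Agent.K4H19.QU

open Pool.Agent.R528.RM

variable {Ω : Type} {m0 : MeasurableSpace Ω} {μ : Measure Ω} [IsProbabilityMeasure μ]
  {ℱ : Filtration ℕ m0} {A : ℕ → Set Ω}

/-- the main term -/
noncomputable def EE (ρ : ℕ → ℝ) (M : ℕ) (H : Finset ℕ) : ℝ :=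
  ∑ n ∈ Finset.range M, ∏ h ∈ H, ρ (n + 1 + h)

lemma TN_empty (ρ : ℕ → ℝ) (M : ℕ) (H : Finset ℕ) (ω : Ω) : TN A ρ M ∅ H ω = EE ρ M H := by
  unfold TN EE
  simp

lemma EE_nonneg {ρ : ℕ → ℝ} (hρ : ∀ n, 0 ≤ ρ n ∧ ρ n ≤ 1) (M : ℕ) (H : Finset ℕ) : 0 ≤ EE ρ M H :=
  Finset.sum_nonneg fun n _ => Finset.prod_nonneg fun h _ => (hρ _).1

lemma wt_terms (ρ : ℕ → ℝ) (ω : Ω) (L U : Finset ℕ) (g : ℕ) (hL : ∀ a ∈ L, a < g) (hU : ∀ b ∈ U, g < b) (k : ℕ) :
    (∏ h ∈ insert g L, In A (k + 1 + h) ω) * ∏ h ∈ U, ρ (k + 1 + h) =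
        wt A ρ (insert g (L ∪ U)) g k ω * In A (g + k + 1) ω ∧
      (∏ h ∈ L, In A (k + 1 + h) ω) * ∏ h ∈ insert g U, ρ (k + 1 + h) =
        wt A ρ (insert g (L ∪ U)) g k ω * ρ (g + k + 1) := by
  classical
  have hgL : g ∉ L := fun h => lt_irrefl _ (hL g h)
  have hgU : g ∉ U := fun h => lt_irrefl _ (hU g h)
  have f1 : (insert g (L ∪ U)).filter (· < g) = L := by
    ext a
    simp only [Finset.mem_filter, Finset.mem_insert, Finset.mem_union]
    constructor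
    · rintro ⟨h1 | h1 | h1, h2⟩
      · omega
      · exact h1
      · have := hU a h1; omega
    · intro h
      exact ⟨Or.inr (Or.inl h), hL a h⟩
  have f2 : (insert g (L ∪ U)).filter (g < ·) = U := by
    ext a
    simp only [Finset.mem_filter, Finset.mem_insert, Finset.mem_union]
    constructor
    · rintro ⟨h1 | h1 | h1, h2⟩
      · omega
      · have := hL a h1; omega
      · exact h1
    · intro h
      exact ⟨Or.inr (Or.inr h), hU a h⟩
  constructor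
  · simp only [wt, f1, f2]
    rw [Finset.prod_insert hgL, show k + 1 + g = g + k + 1 by ring]
    ring
  · simp only [wt, f1, f2]
    rw [Finset.prod_insert hgU, show k + 1 + g = g + k + 1 by ring]
    ring

/-- the number of chosen elements in terms of the weights, and the comparison with the densities -/
lemma step {ρ : ℕ → ℝ} (hρ : ∀ n, 0 ≤ ρ n ∧ ρ n ≤ 1) {ω : Ω} {ε : ℝ} {y : ℕ}
    (hN : ∀ n, y ≤ n → |dens μ ℱ A n ω - ρ (n + 1)| ≤ ε * ρ (n + 1))
    (M : ℕ) (L U : Finset ℕ) (g : ℕ) (hg : y ≤ g) (hL : ∀ a ∈ L, a < g) (hU : ∀ b ∈ U, g < b) :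
    TN A ρ M (insert g L) U ω = ∑ k ∈ Finset.range M, wt A ρ (insert g (L ∪ U)) g k ω * In A (g + k + 1) ω ∧
    |TN A ρ M (insert g L) U ω - TN A ρ M L (insert g U) ω| ≤
      |Sw μ ℱ A g (wt A ρ (insert g (L ∪ U)) g) M ω| + ε * TN A ρ M L (insert g U) ω ∧
    |∑ k ∈ Finset.range M, wt A ρ (insert g (L ∪ U)) g k ω * dens μ ℱ A (g + k) ω - TN A ρ M L (insert g U) ω| ≤
      ε * TN A ρ M L (insert g U) ω := by
  set w : ℕ → ℝ := fun k => wt A ρ (insert g (L ∪ U)) g k ω with hw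
  have hw01 : ∀ k, 0 ≤ w k ∧ w k ≤ 1 := fun k => wt_01 hρ _ _ _ _
  have e1 : TN A ρ M (insert g L) U ω = ∑ k ∈ Finset.range M, w k * In A (g + k + 1) ω := by
    unfold TN
    exact Finset.sum_congr rfl fun k _ => (wt_terms ρ ω L U g hL hU k).1
  have e2 : TN A ρ M L (insert g U) ω = ∑ k ∈ Finset.range M, w k * ρ (g + k + 1) := by
    unfold TN
    exact Finset.sum_congr rfl fun k _ => (wt_terms ρ ω L U g hL hU k).2
  have e3 : |∑ k ∈ Finset.range M, w k * dens μ ℱ A (g + k) ω - TN A ρ M L (insert g U) ω| ≤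
      ε * TN A ρ M L (insert g U) ω := by
    rw [e2, ← Finset.sum_sub_distrib, Finset.mul_sum]
    refine (Finset.abs_sum_le_sum_abs _ _).trans (Finset.sum_le_sum fun k _ => ?_)
    rw [← mul_sub, abs_mul, abs_of_nonneg (hw01 k).1]
    have c1 := hN (g + k) (by omega)
    calc w k * |dens μ ℱ A (g + k) ω - ρ (g + k + 1)| ≤ w k * (ε * ρ (g + k + 1)) :=
          mul_le_mul_of_nonneg_left c1 (hw01 k).1
      _ = _ := by ring
  refine ⟨e1, ?_, e3⟩
  have e4 : TN A ρ M (insert g L) U ω - TN A ρ M L (insert g U) ω =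
      Sw μ ℱ A g (wt A ρ (insert g (L ∪ U)) g) M ω +
        (∑ k ∈ Finset.range M, w k * dens μ ℱ A (g + k) ω - TN A ρ M L (insert g U) ω) := by
    rw [e1]
    unfold Sw
    rw [show ∀ p q r s : ℝ, p - q = r + (s - q) ↔ p = r + s by intro p q r s; constructor <;> intro h <;> linarith,
      ← Finset.sum_add_distrib]
    refine Finset.sum_congr rfl fun k _ => ?_
    simp only [hw, In]
    ring
  rw [e4]
  exact (abs_add_le _ _).trans (by linarith)

/-- the bad event at the element `g` -/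
def BadS (μ : Measure Ω) (ℱ : Filtration ℕ m0) (A : ℕ → Set Ω) (ρ : ℕ → ℝ) (ε : ℝ) (M : ℕ) (H : Finset ℕ) (g : ℕ) :
    Set Ω :=
  {ω | ε * EE ρ M H ≤ |Sw μ ℱ A g (wt A ρ H g) M ω| ∧
    ∑ k ∈ Finset.range M, wt A ρ H g k ω * dens μ ℱ A (g + k) ω ≤ 4 * EE ρ M H}

/-- all steps -/
theorem chain {ρ : ℕ → ℝ} (hρ : ∀ n, 0 ≤ ρ n ∧ ρ n ≤ 1) {ω : Ω} {ε : ℝ} (hε : 0 ≤ ε) {y : ℕ}
    (hN : ∀ n, y ≤ n → |dens μ ℱ A n ω - ρ (n + 1)| ≤ ε * ρ (n + 1))
    (M : ℕ) (H : Finset ℕ) (hH : ∀ g ∈ H, y ≤ g) (hk : 3 * H.card * ε ≤ 1) (L : Finset ℕ) :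
    ∀ U : Finset ℕ, (∀ a ∈ L, ∀ b ∈ U, a < b) → L ∪ U = H → (∀ g ∈ L, ω ∉ BadS μ ℱ A ρ ε M H g) →
      |TN A ρ M L U ω - EE ρ M H| ≤ 3 * L.card * ε * EE ρ M H := by
  classical
  have hE0 := EE_nonneg hρ M H
  induction L using Finset.induction_on_max with
  | empty =>
    intro U _ hU _
    rw [Finset.empty_union] at hU
    subst hU
    rw [TN_empty]
    simp
  | insert g L hg ih =>
    intro U hLU hU hB
    have hgL : g ∉ L := fun h => lt_irrefl _ (hg g h)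
    have hgU : ∀ b ∈ U, g < b := fun b hb => hLU g (Finset.mem_insert_self g L) b hb
    have h3 : insert g (L ∪ U) = H := by rw [← Finset.insert_union]; exact hU
    have hgH : g ∈ H := by rw [← h3]; exact Finset.mem_insert_self _ _
    have hLH : insert g L ⊆ H := by rw [← hU]; exact Finset.subset_union_left
    have h1 := ih (insert g U) (by
      intro a ha b hb
      rcases Finset.mem_insert.1 hb with h | h
      · rw [h]; exact hg a ha
      · exact hLU a (Finset.mem_insert_of_mem ha) b h) (by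
      rw [Finset.union_insert, ← Finset.insert_union]
      exact hU) (fun g' hg' => hB g' (Finset.mem_insert_of_mem hg'))
    obtain ⟨-, h4, h5⟩ := step (μ := μ) hρ hN M L U g (hH g hgH) hg hgU
    rw [h3] at h4 h5
    set T := TN A ρ M L (insert g U) ω
    set E := EE ρ M H with hE
    have hcard : (L.card : ℝ) + 1 ≤ H.card := by
      have := Finset.card_le_card hLH
      rw [Finset.card_insert_of_notMem hgL] at this
      exact_mod_cast this
    have hcl : 3 * L.card * ε ≤ 1 := by nlinarith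
    have hε1 : ε ≤ 1 := by
      have : (1 : ℝ) ≤ H.card := by
        have : (0 : ℝ) ≤ L.card := Nat.cast_nonneg _
        linarith
      nlinarith
    have hT : T ≤ 2 * E := by
      have h6 := (abs_le.1 h1).2
      nlinarith
    have h7 : ∑ k ∈ Finset.range M, wt A ρ H g k ω * dens μ ℱ A (g + k) ω ≤ 4 * E := by
      have h8 := (abs_le.1 h5).2
      nlinarith
    have h9 : |Sw μ ℱ A g (wt A ρ H g) M ω| < ε * E := by
      by_contra hcon
      exact hB g (Finset.mem_insert_self _ _) ⟨not_lt.1 hcon, h7⟩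
    rw [Finset.card_insert_of_notMem hgL]
    push_cast
    have h10 : |TN A ρ M (insert g L) U ω - T| ≤ 3 * ε * E := by nlinarith
    calc |TN A ρ M (insert g L) U ω - E| ≤ |TN A ρ M (insert g L) U ω - T| + |T - E| := abs_sub_le _ _ _
      _ ≤ 3 * ε * E + 3 * L.card * ε * E := add_le_add h10 h1
      _ = _ := by ring

/-- the probability of the bad event -/
theorem bad_le (hA : ∀ n, MeasurableSet[ℱ n] (A n)) {ρ : ℕ → ℝ} (hρ : ∀ n, 0 ≤ ρ n ∧ ρ n ≤ 1) {ε : ℝ} (hε : 0 ≤ ε)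
    (hε1 : ε ≤ 1) (M : ℕ) (H : Finset ℕ) (g : ℕ) {b : ℝ} (hb : 0 < b)
    (hwb : ∀ k ω, wt A ρ H g k ω ≤ b) :
    μ.real (BadS μ ℱ A ρ ε M H g) ≤ 2 * Real.exp (-(ε ^ 2 * EE ρ M H / (16 * b))) := by
  have h1 := tail_two (μ := μ) hA g (wt A ρ H g) (fun k => wt_meas hA ρ H g k) hb.le
    (fun k ω => ⟨(wt_01 hρ H g k ω).1, hwb k ω⟩) M (t := ε / (8 * b)) (by positivity)
    (by
      rw [div_mul_eq_mul_div, div_le_one (by positivity)]
      nlinarith)
    (ε * EE ρ M H) (4 * EE ρ M H)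
  refine h1.trans (le_of_eq ?_)
  congr 2
  field_simp
  ring

/-- no tuple in the window -/
def NoT (μ : Measure Ω) (ℱ : Filtration ℕ m0) (A : ℕ → Set Ω) (ρ : ℕ → ℝ) (M : ℕ) (H : Finset ℕ) (g : ℕ) (D : ℝ) :
    Set Ω :=
  {ω | ∑ k ∈ Finset.range M, wt A ρ H g k ω * In A (g + k + 1) ω = 0 ∧
    D ≤ ∑ k ∈ Finset.range M, wt A ρ H g k ω * dens μ ℱ A (g + k) ω}

theorem not_le' (hA : ∀ n, MeasurableSet[ℱ n] (A n)) {ρ : ℕ → ℝ} (hρ : ∀ n, 0 ≤ ρ n ∧ ρ n ≤ 1)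
    (M : ℕ) (H : Finset ℕ) (g : ℕ) {τ : ℝ} (hτ : 0 ≤ τ) (D : ℝ) :
    μ.real (NoT μ ℱ A ρ M H g D) ≤ Real.exp (-((1 - Real.exp (-τ)) * D)) :=
  tail_low (μ := μ) hA g (wt A ρ H g) (fun k => wt_meas hA ρ H g k) (fun k ω => wt_01 hρ H g k ω) M hτ D

/-- if all bad events fail, there is a tuple -/
theorem chain_pos {ρ : ℕ → ℝ} (hρ : ∀ n, 0 ≤ ρ n ∧ ρ n ≤ 1) {ω : Ω} {ε : ℝ} (hε : 0 ≤ ε) {y : ℕ}
    (hN : ∀ n, y ≤ n → |dens μ ℱ A n ω - ρ (n + 1)| ≤ ε * ρ (n + 1))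
    (M : ℕ) (H : Finset ℕ) (hH : ∀ g ∈ H, y ≤ g) (hk : 3 * H.card * ε ≤ 1) (g : ℕ) (hgH : g ∈ H)
    (hmax : ∀ a ∈ H, a ≤ g) (hB : ∀ a ∈ H, a < g → ω ∉ BadS μ ℱ A ρ ε M H a)
    (hB' : ω ∉ NoT μ ℱ A ρ M H g ((1 - 4 * H.card * ε) * EE ρ M H)) :
    0 < TN A ρ M H ∅ ω := by
  classical
  have hE0 := EE_nonneg hρ M H
  have hk1 : (1 : ℝ) ≤ H.card := by exact_mod_cast Finset.card_pos.2 ⟨g, hgH⟩
  have h0 := TN_nonneg (A := A) hρ M H ∅ ω
  rcases h0.lt_or_eq with h0 | h0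
  · exact h0
  exfalso
  apply hB'
  have hL : ∀ a ∈ H.erase g, a < g := fun a ha =>
    lt_of_le_of_ne (hmax a (Finset.mem_of_mem_erase ha)) (Finset.ne_of_mem_erase ha)
  have hins : insert g (H.erase g) = H := Finset.insert_erase hgH
  have h1 := chain (μ := μ) hρ hε hN M H hH hk (H.erase g) {g} (by
    intro a ha b hb
    rw [Finset.mem_singleton] at hb
    rw [hb]
    exact hL a ha) (by rw [Finset.union_comm, ← Finset.insert_eq, hins])
    (fun a ha => hB a (Finset.mem_of_mem_erase ha) (hL a ha))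
  obtain ⟨e1, -, h5⟩ := step (μ := μ) hρ hN M (H.erase g) ∅ g (hH g hgH) hL (by simp)
  rw [Finset.union_empty, hins] at e1 h5
  rw [insert_empty_eq] at h5
  have hcard : ((H.erase g).card : ℝ) = H.card - 1 := by
    rw [Finset.card_erase_of_mem hgH]
    have := Finset.card_pos.2 ⟨g, hgH⟩
    push_cast [Nat.cast_sub this]
    ring
  rw [hcard] at h1
  set T := TN A ρ M (H.erase g) {g} ω
  set E := EE ρ M H
  refine ⟨by rw [← e1, ← h0], ?_⟩
  have h6 := (abs_le.1 h1).1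
  have h7 := (abs_le.1 h5).1
  have hε1 : ε ≤ 1 := by nlinarith
  have h8 : (1 - 3 * (H.card - 1) * ε) * E ≤ T := by linarith
  have h9 : (1 - ε) * T ≤ ∑ k ∈ Finset.range M, wt A ρ H g k ω * dens μ ℱ A (g + k) ω := by linarith
  refine le_trans ?_ h9
  refine le_trans ?_ (mul_le_mul_of_nonneg_left h8 (by linarith))
  rw [← mul_assoc]
  apply mul_le_mul_of_nonneg_right _ hE0
  have e : (1 - ε) * (1 - 3 * ((H.card : ℝ) - 1) * ε) - (1 - 4 * H.card * ε) =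
      H.card * ε + 2 * ε + 3 * (((H.card : ℝ) - 1) * ε ^ 2) := by ring
  have e1 : 0 ≤ (H.card : ℝ) * ε := by positivity
  have e2 : 0 ≤ ((H.card : ℝ) - 1) * ε ^ 2 := mul_nonneg (by linarith) (sq_nonneg _)
  linarith

end Pool.Agent.K4H19.QU
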